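import Pool.Agent.T2h24c.Main

/-!
# Multiplicative functions periodic modulo primes: a power saving

Let `F` be multiplicative, and let there be one rational number `u = α / β > 0`, `u ≠ 1`, such that `u`
and `F(u) = F(α) / F(β)` are multiplicatively dependent (for instance one `u ≥ 2` such that `|F(u)|` is
a power of `u`). If `F` is not a monomial `n ↦ n ^ k` then for every `ε > 0` the number of the primes
`l ≤ X` modulo which `F` is periodic with period `l` is `O(X ^ (2/3 + ε))`.

Proof. Let `|F(u)| ^ b = u ^ a`, and `w(n) = F(n) ^ (2b) / n ^ (2a)`, a homomorphism from the positive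
rational numbers to themselves. If `S_F` is infinite, `F` is completely multiplicative and
`F(n) ≡ n ^ g`, `w(n) ≡ n ^ h` modulo `l`, for `l` in `S_F`. So modulo `l` the `h`-th powers of the
elements of the kernel of `w` are `1`, and the values of `w` are `h`-th powers: the orders modulo `l`
of a subgroup of the kernel and of a subgroup of the image have a product of at most `l - 1`. A
multiplicatively independent set of `r` rational numbers generates modulo all but
`O(y ^ (1 + 1/r))` primes a group of order larger than `y`. As `u` is in the kernel, and the image is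
not trivial (else `|F(n)| = n ^ k`, and then `F(n) = n ^ k`, because a completely multiplicative
function with the values `1`, `-1` cannot be periodic modulo two primes), and as the rank of the kernel
or the rank of the image is infinite, the pairs `(1, m)` or `(m, 1)` are possible for these ranks, for
all `m`, and with `y = X ^ (1/3)` for the rank `1` and `X ^ (2/3)` for the rank `m` one obtains the
exponent `2/3 + 2/(3m)`.
-/

set_option autoImplicit false

open Finset

namespace Pool.Agent.T2h24c.One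

open Pool.Agent.T2h24c

/-- **A power saving.** Let `F` be multiplicative, and let there be positive integers `α ≠ β` such that
`u = α / β` and `F(α) / F(β)` are multiplicatively dependent: `|F(α) / F(β)| ^ b = (α / β) ^ a` for some
integers `a` and `b > 0` (for instance `β = 1` and `|F(α)|` is a power of `α ≥ 2`). Then there is `k`
with `F(n) = n ^ k` for all `n ≥ 1`, or for every `ε > 0` the number of the primes `l ≤ X` in `S_F` is
at most `C X ^ (2/3 + ε)` for all `X ≥ 1`. -/
theorem result (F : ℕ → ℤ) (hF1 : F 1 = 1)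
    (hm : ∀ m n : ℕ, 1 ≤ m → 1 ≤ n → Nat.Coprime m n → F (m * n) = F m * F n)
    (hu : ∃ α β : ℕ, 0 < α ∧ 0 < β ∧ α ≠ β ∧ ∃ (a : ℤ) (b : ℕ), 0 < b ∧
      |(F α : ℚ) / F β| ^ b = ((α : ℚ) / β) ^ a) :
    (∃ k : ℕ, ∀ n : ℕ, 1 ≤ n → F n = (n : ℤ) ^ k) ∨
    ∀ ε : ℝ, 0 < ε → ∃ C : ℝ, ∀ X : ℕ, 1 ≤ X →
      (({l ∈ SF F | l ≤ X}).ncard : ℝ) ≤ C * (X : ℝ) ^ (2 / 3 + ε) := by
  by_cases hS : (SF F).Infinite
  swap
  · right
    intro ε hε
    have hfin : (SF F).Finite := Set.not_infinite.1 hS
    refine ⟨(SF F).ncard, fun X hX => ?_⟩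
    have hX1 : (1 : ℝ) ≤ X := by exact_mod_cast hX
    have h1 : ({l ∈ SF F | l ≤ X}).ncard ≤ (SF F).ncard :=
      Set.ncard_le_ncard (fun l hl => hl.1) hfin
    have h2 : (1 : ℝ) ≤ (X : ℝ) ^ (2 / 3 + ε) := Real.one_le_rpow hX1 (by positivity)
    calc (({l ∈ SF F | l ≤ X}).ncard : ℝ) ≤ (SF F).ncard := by exact_mod_cast h1
      _ = (SF F).ncard * 1 := (mul_one _).symm
      _ ≤ _ := mul_le_mul_of_nonneg_left h2 (Nat.cast_nonneg _)
  have hc := cm hF1 hm hS
  have hF0 : ∀ n : ℕ, 1 ≤ n → F n ≠ 0 := fun n hn => ne_zero hF1 hc hS hn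
  obtain ⟨α, β, hα, hβ, hαβ, a, b, hb, hab⟩ := hu
  have he : nu F a b α * de a β = nu F a b β * de a α := by
    have hα0 : (α : ℚ) ≠ 0 := by exact_mod_cast hα.ne'
    have hβ0 : (β : ℚ) ≠ 0 := by exact_mod_cast hβ.ne'
    have hFβ : ((F β).natAbs : ℚ) ≠ 0 := by
      exact_mod_cast (Int.natAbs_pos.2 (hF0 β hβ)).ne'
    have h1 : (((F α).natAbs : ℚ) / (F β).natAbs) ^ b = ((α : ℚ) / β) ^ a := by
      rw [← hab, abs_div]
      congr 2
      · rw [Nat.cast_natAbs]
        push_cast
        rfl
      · rw [Nat.cast_natAbs]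
        push_cast
        rfl
    have h2 : (((F α).natAbs : ℚ) / (F β).natAbs) ^ (2 * b) = ((α : ℚ) / β) ^ (2 * a) := by
      rw [mul_comm 2 b, pow_mul, h1, mul_comm 2 a, zpow_mul]
      norm_cast
    have h3 : ((α : ℚ) / β) ^ (2 * a) = ((α : ℚ) / β) ^ (2 * a).toNat /
        ((α : ℚ) / β) ^ (-(2 * a)).toNat := by
      have e : (2 * a) = ((2 * a).toNat : ℤ) - ((-(2 * a)).toNat : ℤ) := by omega
      conv_lhs => rw [e]
      rw [zpow_sub₀ (div_ne_zero hα0 hβ0), zpow_natCast, zpow_natCast]
    rw [h3, div_pow, div_pow, div_pow] at h2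
    have h4 : (nu F a b α * de a β : ℚ) = nu F a b β * de a α := by
      unfold nu de
      push_cast
      have g1 : (α : ℚ) ^ (-(2 * a)).toNat ≠ 0 := pow_ne_zero _ hα0
      have g2 : (β : ℚ) ^ (-(2 * a)).toNat ≠ 0 := pow_ne_zero _ hβ0
      have g3 : (β : ℚ) ^ (2 * a).toNat ≠ 0 := pow_ne_zero _ hβ0
      have g4 : ((F β).natAbs : ℚ) ^ (2 * b) ≠ 0 := pow_ne_zero _ hFβ
      field_simp at h2
      linear_combination h2
    exact_mod_cast h4
  by_cases hw : ∀ p : ℕ, p.Prime → nu F a b p = de a p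
  · left
    obtain ⟨k, hk⟩ := abs_monomial hF1 hc a b hb hw
    exact ⟨k, sign hF1 hS k hk⟩
  · right
    push Not at hw
    obtain ⟨q, hq, hqw⟩ := hw
    intro ε hε
    obtain ⟨m, hm⟩ := exists_nat_gt (2 / (3 * ε))
    have hm0 : (0 : ℝ) < m := lt_trans (by positivity) hm
    have hm1 : 1 ≤ m := by
      have : 0 < m := by exact_mod_cast hm0
      omega
    have hmε : 2 / 3 * (1 + 1 / (m : ℝ)) ≤ 2 / 3 + ε := by
      have h1 : 2 / 3 * (1 / (m : ℝ)) ≤ ε := by
        rw [div_lt_iff₀ (by positivity)] at hm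
        rw [mul_one_div, div_le_iff₀ hm0]
        linarith
      linarith
    rcases dich (nu F a b) (de a) m with ⟨J, hJm, hJp, hJ⟩ | ⟨J, hJp, hJ, hmax⟩
    · have hf := fam_values hF1 hc hF0 a b hα hβ hαβ he J hJm hJp hJ
      refine bound_of_fam le_rfl hm1 hf (1 / 3) (by norm_num) (by norm_num) _ ?_ ?_
      · norm_num
        linarith
      · rw [show (1 : ℝ) - 1 / 3 = 2 / 3 by norm_num]
        exact hmε
    · have hf := fam_kernel hF1 hc hF0 a b hq hqw m J hJp hJ hmax
      refine bound_of_fam hm1 le_rfl hf (2 / 3) (by norm_num) (by norm_num) _ hmε ?_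
      norm_num
      linarith

end Pool.Agent.T2h24c.One
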