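import Pool.Agent.T2h24c.Basic

set_option autoImplicit false

open Finset

namespace Pool.Agent.T2h24c

variable {F : ℕ → ℤ}

lemma per {l : ℕ} (hl : l ∈ SF F) {a b : ℕ} (ha : 1 ≤ a) (hb : 1 ≤ b) (h : a ≡ b [MOD l]) :
    F a ≡ F b [ZMOD (l : ℤ)] := by
  have key : ∀ a t, 1 ≤ a → F (a + l * t) ≡ F a [ZMOD (l : ℤ)] := by
    intro a t ha
    induction t with
    | zero => simp
    | succ t ih =>
      have h1 := hl.2 (a + l * t) (by omega)
      have e : a + l * (t + 1) = a + l * t + l := by ring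
      rw [e]
      exact h1.trans ih
  rcases le_total a b with hle | hle
  · obtain ⟨t, ht⟩ := (Nat.modEq_iff_dvd' hle).1 h
    have e : b = a + l * t := by omega
    rw [e]; exact (key a t ha).symm
  · obtain ⟨t, ht⟩ := (Nat.modEq_iff_dvd' hle).1 h.symm
    have e : a = b + l * t := by omega
    rw [e]; exact key b t hb

lemma mul_mod (_hF1 : F 1 = 1) (hm : ∀ m n : ℕ, 1 ≤ m → 1 ≤ n → Nat.Coprime m n → F (m * n) = F m * F n)
    {l : ℕ} (hl : l ∈ SF F) {m n : ℕ} (hm1 : 1 ≤ m) (hn1 : 1 ≤ n) (hln : ¬ l ∣ n) :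
    F (m * n) ≡ F m * F n [ZMOD (l : ℤ)] := by
  have hc : Nat.Coprime l n := (hl.1.coprime_iff_not_dvd).2 hln
  obtain ⟨k, hk1, hk2⟩ := Nat.chineseRemainder hc m 1
  -- a positive representative
  set m' := k + l * n with hm'
  have hm'1 : 1 ≤ m' := by
    have : 0 < l * n := Nat.mul_pos hl.1.pos hn1
    omega
  have h1 : m' ≡ m [MOD l] := by
    have : k + l * n ≡ k [MOD l] := by simp [Nat.ModEq]
    exact this.trans hk1
  have h2 : m' ≡ 1 [MOD n] := by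
    have : k + l * n ≡ k [MOD n] := by
      simp [Nat.ModEq]
    exact this.trans hk2
  have hco : Nat.Coprime m' n := by
    have := h2.gcd_eq
    rw [Nat.gcd_one_left] at this
    exact this
  have h3 : F (m * n) ≡ F (m' * n) [ZMOD (l : ℤ)] :=
    per hl (Nat.mul_pos hm1 hn1) (Nat.mul_pos hm'1 hn1) (Nat.ModEq.mul_right n h1.symm)
  rw [hm m' n hm'1 hn1 hco] at h3
  exact h3.trans ((per hl hm'1 hm1 h1).mul_right _)

/-- if `S_F` is infinite then `F` is completely multiplicative -/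
lemma cm (hF1 : F 1 = 1) (hm : ∀ m n : ℕ, 1 ≤ m → 1 ≤ n → Nat.Coprime m n → F (m * n) = F m * F n)
    (hS : (SF F).Infinite) : ∀ m n : ℕ, 1 ≤ m → 1 ≤ n → F (m * n) = F m * F n := by
  intro m n hm1 hn1
  obtain ⟨l, hl, hbig⟩ := hS.exists_gt (n + (F (m * n) - F m * F n).natAbs)
  have hln : ¬ l ∣ n := fun h => absurd (Nat.le_of_dvd hn1 h) (by omega)
  have h1 := mul_mod hF1 hm hl hm1 hn1 hln
  have h2 : (l : ℤ) ∣ F (m * n) - F m * F n := Int.modEq_iff_dvd.1 h1.symm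
  have h3 : F (m * n) - F m * F n = 0 := by
    apply Int.eq_zero_of_abs_lt_dvd h2
    rw [Int.abs_eq_natAbs]
    exact_mod_cast (by omega)
  linarith

lemma ne_zero_mod (hF1 : F 1 = 1) (hc : ∀ m n : ℕ, 1 ≤ m → 1 ≤ n → F (m * n) = F m * F n)
    {l : ℕ} (hl : l ∈ SF F) {n : ℕ} (hn1 : 1 ≤ n) (hln : ¬ l ∣ n) : ¬ (l : ℤ) ∣ F n := by
  intro hd
  have : Fact l.Prime := ⟨hl.1⟩
  have hcop : Nat.Coprime n l := (hl.1.coprime_iff_not_dvd.2 hln).symm
  obtain ⟨m, -, hm⟩ := Nat.exists_mul_mod_eq_one_of_coprime hcop hl.1.one_lt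
  have hm1 : 1 ≤ m := by
    rcases Nat.eq_zero_or_pos m with h | h
    · subst h
      simp at hm
    · exact h
  have h1 : n * m ≡ 1 [MOD l] := by
    rw [Nat.ModEq, hm, Nat.mod_eq_of_lt hl.1.one_lt]
  have h2 := per hl (Nat.mul_pos hn1 hm1) le_rfl h1
  rw [hc n m hn1 hm1, hF1] at h2
  have h3 : (l : ℤ) ∣ F n * F m := dvd_mul_of_dvd_left hd _
  have h4 : (l : ℤ) ∣ 1 := by
    have := Int.modEq_iff_dvd.1 h2
    have h5 := dvd_add this h3
    simpa using h5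
  have h5 : (l : ℤ) = 1 := by
    have := Int.eq_one_of_dvd_one (by positivity) h4
    exact this
  have := hl.1.one_lt
  omega

lemma ne_zero (hF1 : F 1 = 1) (hc : ∀ m n : ℕ, 1 ≤ m → 1 ≤ n → F (m * n) = F m * F n)
    (hS : (SF F).Infinite) {n : ℕ} (hn1 : 1 ≤ n) : F n ≠ 0 := by
  intro h0
  obtain ⟨l, hl, hbig⟩ := hS.exists_gt n
  have hln : ¬ l ∣ n := fun h => absurd (Nat.le_of_dvd hn1 h) (by omega)
  apply ne_zero_mod hF1 hc hl hn1 hln
  rw [h0]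
  exact dvd_zero _

lemma pow_eq (hF1 : F 1 = 1) (hc : ∀ m n : ℕ, 1 ≤ m → 1 ≤ n → F (m * n) = F m * F n) {n : ℕ}
    (hn1 : 1 ≤ n) (j : ℕ) : F (n ^ j) = F n ^ j := by
  induction j with
  | zero => simpa using hF1
  | succ j ih => rw [pow_succ, hc _ _ (Nat.one_le_pow _ _ hn1) hn1, ih, pow_succ]

/-- modulo `l`, `F` is a power map -/
lemma power (hF1 : F 1 = 1) (hc : ∀ m n : ℕ, 1 ≤ m → 1 ≤ n → F (m * n) = F m * F n)
    {l : ℕ} (hl : l ∈ SF F) : ∃ g : ℤ, ∀ n : ℕ, 1 ≤ n → ¬ l ∣ n →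
      ((F n : ℤ) : ZMod l) = ((un l n ^ g : (ZMod l)ˣ) : ZMod l) := by
  have : Fact l.Prime := ⟨hl.1⟩
  obtain ⟨ζ, hζ⟩ := IsCyclic.exists_monoid_generator (α := (ZMod l)ˣ)
  set c := (ζ : ZMod l).val with hcdef
  have hcast : ((c : ℕ) : ZMod l) = (ζ : ZMod l) := ZMod.natCast_zmod_val _
  have hlc : ¬ l ∣ c := by
    intro hd
    have h1 : ((c : ℕ) : ZMod l) = 0 := (ZMod.natCast_eq_zero_iff _ _).2 hd
    rw [hcast] at h1
    exact ζ.ne_zero h1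
  have hc1 : 1 ≤ c := by
    rcases Nat.eq_zero_or_pos c with h | h
    · rw [h] at hlc
      exact absurd (dvd_zero l) hlc
    · exact h
  have hne : ((F c : ℤ) : ZMod l) ≠ 0 := by
    intro h0
    exact ne_zero_mod hF1 hc hl hc1 hlc ((ZMod.intCast_zmod_eq_zero_iff_dvd _ _).1 h0)
  obtain ⟨g, hg⟩ : ∃ g : ℕ, ζ ^ g = Units.mk0 _ hne := hζ _
  refine ⟨g, fun n hn1 hln => ?_⟩
  obtain ⟨j, hj⟩ : ∃ j : ℕ, ζ ^ j = un l n := hζ _
  have h1 : n ≡ c ^ j [MOD l] := by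
    rw [← ZMod.natCast_eq_natCast_iff]
    push_cast
    rw [hcast, ← un_val hl.1 hln, ← hj]
    push_cast
    rfl
  have h2 := per hl hn1 (Nat.one_le_pow _ _ hc1) h1
  rw [pow_eq hF1 hc hc1] at h2
  have h3 : ((F n : ℤ) : ZMod l) = ((F c : ℤ) : ZMod l) ^ j := by
    have := (ZMod.intCast_eq_intCast_iff _ _ _).2 h2
    rw [this]
    push_cast
    rfl
  rw [h3]
  have h4 : ((F c : ℤ) : ZMod l) = ((ζ ^ g : (ZMod l)ˣ) : ZMod l) := by
    rw [hg]
    rfl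
  rw [h4, ← hj, zpow_natCast, ← Units.val_pow_eq_pow_val, ← pow_mul, ← pow_mul, mul_comm]

end Pool.Agent.T2h24c
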