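import Pool.Agent.T2h24c.Defs

set_option autoImplicit false

open Finset

namespace Pool.Agent.T2h24c

lemma card_mul_le {G : Type} [CommGroup G] [Finite G] (h : ℤ) (H W : Subgroup G)
    (hH : ∀ x ∈ H, x ^ h = 1) (hW : ∀ x ∈ W, ∃ y : G, y ^ h = x) :
    Nat.card H * Nat.card W ≤ Nat.card G := by
  have h1 : H ≤ (zpowGroupHom h : G →* G).ker := fun x hx => by
    rw [MonoidHom.mem_ker]; exact hH x hx
  have h2 : W ≤ (zpowGroupHom h : G →* G).range := fun x hx => by
    obtain ⟨y, hy⟩ := hW x hx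
    exact ⟨y, hy⟩
  have h3 : Nat.card H ≤ Nat.card (zpowGroupHom h : G →* G).ker := Subgroup.card_le_of_le h1
  have h4 : Nat.card W ≤ Nat.card (zpowGroupHom h : G →* G).range := Subgroup.card_le_of_le h2
  have h5 : Nat.card (zpowGroupHom h : G →* G).ker * Nat.card (zpowGroupHom h : G →* G).range =
      Nat.card G := by
    rw [← Subgroup.index_ker]
    exact Subgroup.card_mul_index _
  calc _ ≤ _ := Nat.mul_le_mul h3 h4
    _ = _ := h5

/-- the class of `n` in the group of units mod `l` (`1` if `n` is not invertible) -/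
noncomputable def un (l n : ℕ) : (ZMod l)ˣ := by
  classical exact if h : IsUnit (n : ZMod l) then h.unit else 1

lemma un_val {l n : ℕ} (hl : l.Prime) (h : ¬ l ∣ n) : ((un l n : (ZMod l)ˣ) : ZMod l) = n := by
  have : Fact l.Prime := ⟨hl⟩
  have h1 : IsUnit (n : ZMod l) := by
    rw [isUnit_iff_ne_zero, Ne, ZMod.natCast_eq_zero_iff]
    exact h
  unfold un
  rw [dif_pos h1]
  rfl

/-- `∏ α i ^ (d i)⁺ * β i ^ (d i)⁻` -/
def PP {ι : Type} (J : Finset ι) (α β : ι → ℕ) (d : ι → ℤ) : ℕ :=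
  ∏ i ∈ J, α i ^ (d i).toNat * β i ^ (-d i).toNat

lemma zpow_split {G : Type} [CommGroup G] (a b : G) (d : ℤ) :
    (a / b) ^ d = (a ^ d.toNat * b ^ (-d).toNat) / (b ^ d.toNat * a ^ (-d).toNat) := by
  rcases le_total 0 d with h | h
  · obtain ⟨n, rfl⟩ := Int.eq_ofNat_of_zero_le h
    simp [div_pow]
  · obtain ⟨n, hn⟩ := Int.eq_ofNat_of_zero_le (neg_nonneg.mpr h)
    have hd : d = -(n : ℤ) := by omega
    subst hd
    simp [div_pow]

lemma transfer {l : ℕ} (hl : l.Prime) {ι : Type} (J : Finset ι) (α β : ι → ℕ) (d : ι → ℤ)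
    (h : ∀ i ∈ J, ¬ l ∣ α i ∧ ¬ l ∣ β i) :
    ∏ i ∈ J, (un l (α i) / un l (β i)) ^ d i = 1 ↔
      ((PP J α β d : ℕ) : ZMod l) = ((PP J β α d : ℕ) : ZMod l) := by
  have e : ∏ i ∈ J, (un l (α i) / un l (β i)) ^ d i =
      (∏ i ∈ J, un l (α i) ^ (d i).toNat * un l (β i) ^ (-d i).toNat) /
      (∏ i ∈ J, un l (β i) ^ (d i).toNat * un l (α i) ^ (-d i).toNat) := by
    rw [← Finset.prod_div_distrib]
    exact Finset.prod_congr rfl fun i _ => zpow_split _ _ _
  rw [e, div_eq_one, Units.ext_iff]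
  have e1 : ((∏ i ∈ J, un l (α i) ^ (d i).toNat * un l (β i) ^ (-d i).toNat : (ZMod l)ˣ) : ZMod l)
      = ((PP J α β d : ℕ) : ZMod l) := by
    unfold PP
    push_cast
    refine Finset.prod_congr rfl fun i hi => ?_
    rw [un_val hl (h i hi).1, un_val hl (h i hi).2]
  have e2 : ((∏ i ∈ J, un l (β i) ^ (d i).toNat * un l (α i) ^ (-d i).toNat : (ZMod l)ˣ) : ZMod l)
      = ((PP J β α d : ℕ) : ZMod l) := by
    unfold PP
    push_cast
    refine Finset.prod_congr rfl fun i hi => ?_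
    rw [un_val hl (h i hi).1, un_val hl (h i hi).2]
  rw [e1, e2]

/-- the rational numbers `α i / β i`, `i ∈ J`, are multiplicatively independent -/
def Ind {ι : Type} (J : Finset ι) (α β : ι → ℕ) : Prop :=
  ∀ d : ι → ℤ, (∃ i ∈ J, d i ≠ 0) → PP J α β d ≠ PP J β α d

/-- the primes modulo which the `α i / β i` satisfy a relation with exponents at most `E` -/
def Small {r : ℕ} (α β : Fin r → ℕ) (E : ℕ) : Set ℕ :=
  {l | l.Prime ∧ ∃ d : Fin r → ℤ, (∃ i, d i ≠ 0) ∧ (∀ i, |d i| ≤ E) ∧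
    ((PP univ α β d : ℕ) : ZMod l) = ((PP univ β α d : ℕ) : ZMod l)}

lemma pf_card {n M E : ℕ} (hn : n ≠ 0) (h : n ≤ M ^ E) : n.primeFactors.card ≤ M * E := by
  have h1 : 2 ^ n.primeFactors.card ≤ ∏ p ∈ n.primeFactors, p :=
    Finset.pow_card_le_prod _ _ _ fun p hp => (Nat.prime_of_mem_primeFactors hp).two_le
  have h2 : ∏ p ∈ n.primeFactors, p ≤ n :=
    Nat.le_of_dvd (Nat.pos_of_ne_zero hn) (Nat.prod_primeFactors_dvd n)
  have h3 : M ^ E ≤ 2 ^ (M * E) := by
    rw [pow_mul]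
    exact Nat.pow_le_pow_left (Nat.lt_two_pow_self).le _
  exact (Nat.pow_le_pow_iff_right (by norm_num)).1 (h1.trans (h2.trans (h.trans h3)))

lemma PP_le {r : ℕ} (α β : Fin r → ℕ) (hα : ∀ i, 0 < α i) (hβ : ∀ i, 0 < β i) (E : ℕ)
    (d : Fin r → ℤ) (hd : ∀ i, |d i| ≤ E) : PP univ α β d ≤ (∏ i, α i * β i) ^ E := by
  unfold PP
  rw [← Finset.prod_pow]
  refine Finset.prod_le_prod' fun i _ => ?_
  rw [mul_pow]
  have h1 := abs_le.1 (hd i)
  exact Nat.mul_le_mul (Nat.pow_le_pow_right (hα i) (by omega))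
    (Nat.pow_le_pow_right (hβ i) (by omega))

lemma small_card {r : ℕ} (α β : Fin r → ℕ) (hα : ∀ i, 0 < α i) (hβ : ∀ i, 0 < β i)
    (hI : Ind univ α β) (E : ℕ) :
    (Small α β E).Finite ∧
      (Small α β E).ncard ≤ (2 * E + 1) ^ r * ((∏ i, α i * β i) * E) := by
  classical
  set M := ∏ i, α i * β i with hM
  set D : Finset (Fin r → ℤ) :=
    (Fintype.piFinset fun _ : Fin r => Finset.Icc (-(E : ℤ)) E).filter fun d => ∃ i, d i ≠ 0 with hD
  set U : Finset ℕ := D.biUnion fun d =>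
    ((PP univ α β d : ℤ) - (PP univ β α d : ℤ)).natAbs.primeFactors with hU
  have hsub : Small α β E ⊆ (U : Set ℕ) := by
    rintro l ⟨hl, d, hd0, hdE, he⟩
    rw [hU, Finset.mem_coe, Finset.mem_biUnion]
    refine ⟨d, ?_, ?_⟩
    · rw [hD, Finset.mem_filter, Fintype.mem_piFinset]
      exact ⟨fun i => Finset.mem_Icc.2 (abs_le.1 (hdE i)), hd0⟩
    · rw [Nat.mem_primeFactors]
      obtain ⟨i, hi⟩ := hd0
      have hne := hI d ⟨i, mem_univ i, hi⟩
      refine ⟨hl, ?_, ?_⟩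
      · have h1 := (ZMod.natCast_eq_natCast_iff _ _ _).1 he
        have h2 := (Nat.modEq_iff_dvd.1 h1.symm)
        exact Int.natCast_dvd.1 h2
      · intro h0
        have := Int.natAbs_eq_zero.1 h0
        apply hne
        have h3 : (PP univ α β d : ℤ) = (PP univ β α d : ℤ) := by linarith
        exact_mod_cast h3
  refine ⟨U.finite_toSet.subset hsub, ?_⟩
  calc (Small α β E).ncard ≤ (U : Set ℕ).ncard := Set.ncard_le_ncard hsub U.finite_toSet
    _ = U.card := Set.ncard_coe_finset U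
    _ ≤ D.card * (M * E) := by
      rw [hU]
      refine Finset.card_biUnion_le_card_mul _ _ _ fun d hd => ?_
      rw [hD, Finset.mem_filter, Fintype.mem_piFinset] at hd
      have hdE : ∀ i, |d i| ≤ E := fun i => abs_le.2 (Finset.mem_Icc.1 (hd.1 i))
      obtain ⟨i, hi⟩ := hd.2
      have hne := hI d ⟨i, mem_univ i, hi⟩
      apply pf_card
      · intro h0
        have := Int.natAbs_eq_zero.1 h0
        apply hne
        have h3 : (PP univ α β d : ℤ) = (PP univ β α d : ℤ) := by linarith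
        exact_mod_cast h3
      · have h1 := PP_le α β hα hβ E d hdE
        have h2 := PP_le β α hβ hα E d hdE
        have h3 : ∏ i, β i * α i = M := by
          rw [hM]
          exact Finset.prod_congr rfl fun i _ => mul_comm _ _
        rw [h3] at h2
        rw [← hM] at h1
        omega
    _ ≤ (2 * E + 1) ^ r * (M * E) := by
      apply Nat.mul_le_mul_right
      calc D.card ≤ (Fintype.piFinset fun _ : Fin r => Finset.Icc (-(E : ℤ)) E).card :=
            Finset.card_filter_le _ _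
        _ = (2 * E + 1) ^ r := by
          rw [Fintype.card_piFinset_const, Int.card_Icc]
          congr 1
          omega

lemma small_of_card {r : ℕ} (α β : Fin r → ℕ) (E : ℕ) {l : ℕ} (hl : l.Prime)
    (h : ∀ i, ¬ l ∣ α i ∧ ¬ l ∣ β i) (H : Subgroup (ZMod l)ˣ)
    (hH : ∀ i, un l (α i) / un l (β i) ∈ H) (hc : Nat.card H < (E + 1) ^ r) :
    l ∈ Small α β E := by
  classical
  have : Fact l.Prime := ⟨hl⟩
  have : Fintype H := Fintype.ofFinite H
  set f : (Fin r → Fin (E + 1)) → H := fun e =>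
    ⟨∏ i, (un l (α i) / un l (β i)) ^ (e i : ℕ), Subgroup.prod_mem _ fun i _ => H.pow_mem (hH i) _⟩
    with hf
  have hcard : Fintype.card H < Fintype.card (Fin r → Fin (E + 1)) := by
    rw [Fintype.card_fun, Fintype.card_fin, Fintype.card_fin, ← Nat.card_eq_fintype_card]
    exact hc
  obtain ⟨e, e', hne, heq⟩ := Fintype.exists_ne_map_eq_of_card_lt f hcard
  refine ⟨hl, fun i => ((e i : ℕ) : ℤ) - ((e' i : ℕ) : ℤ), ?_, fun i => ?_, ?_⟩
  · by_contra hcon
    push Not at hcon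
    apply hne
    funext i
    have := hcon i
    apply Fin.ext
    omega
  · have h1 := (e i).isLt
    have h2 := (e' i).isLt
    show |((e i : ℕ) : ℤ) - ((e' i : ℕ) : ℤ)| ≤ (E : ℤ)
    rw [abs_le]
    constructor <;> omega
  · rw [← transfer hl univ α β _ fun i _ => h i]
    have h1 : ∏ i, (un l (α i) / un l (β i)) ^ (e i : ℕ) =
        ∏ i, (un l (α i) / un l (β i)) ^ (e' i : ℕ) := congrArg Subtype.val heq
    have h2 : ∏ i, (un l (α i) / un l (β i)) ^ (((e i : ℕ) : ℤ) - ((e' i : ℕ) : ℤ)) =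
        (∏ i, (un l (α i) / un l (β i)) ^ (e i : ℕ)) /
          ∏ i, (un l (α i) / un l (β i)) ^ (e' i : ℕ) := by
      rw [← Finset.prod_div_distrib]
      refine Finset.prod_congr rfl fun i _ => ?_
      rw [zpow_sub, zpow_natCast, zpow_natCast]
      exact (div_eq_mul_inv _ _).symm
    rw [h2, h1, div_self']

end Pool.Agent.T2h24c
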