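import Pool.Agent.T2h24c.Basic

set_option autoImplicit false

open Finset

namespace Pool.Agent.T2h24c

/-- the count for the exponent `θ` -/
lemma key {r : ℕ} (hr : 1 ≤ r) (α β : Fin r → ℕ) (hα : ∀ i, 0 < α i) (hβ : ∀ i, 0 < β i)
    (hI : Ind univ α β) (θ : ℝ) (hθ : 0 ≤ θ) :
    ∃ C : ℝ, 0 ≤ C ∧ ∀ X : ℕ, 1 ≤ X → ∃ E : ℕ, (X : ℝ) ^ θ < (((E + 1) ^ r : ℕ) : ℝ) ∧
      (Small α β E).Finite ∧
      ((Small α β E).ncard : ℝ) ≤ C * (X : ℝ) ^ (θ * (1 + 1 / r)) := by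
  set M := ∏ i, α i * β i with hM
  refine ⟨3 ^ r * M, by positivity, fun X hX => ⟨⌊(X : ℝ) ^ (θ / r)⌋₊, ?_, ?_⟩⟩
  · have hX1 : (1 : ℝ) ≤ X := by exact_mod_cast hX
    have hr0 : (0 : ℝ) < r := by exact_mod_cast hr
    have h1 := Nat.lt_floor_add_one ((X : ℝ) ^ (θ / r))
    have h2 : (X : ℝ) ^ θ = ((X : ℝ) ^ (θ / r)) ^ r := by
      rw [← Real.rpow_natCast, ← Real.rpow_mul (by positivity)]
      congr 1
      field_simp
    rw [h2]
    push_cast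
    exact pow_lt_pow_left₀ h1 (by positivity) (by omega)
  · have hX1 : (1 : ℝ) ≤ X := by exact_mod_cast hX
    have hr0 : (0 : ℝ) < r := by exact_mod_cast hr
    set Y := (X : ℝ) ^ (θ / r) with hY
    have hY1 : 1 ≤ Y := Real.one_le_rpow hX1 (by positivity)
    set E := ⌊Y⌋₊ with hE
    have hE1 : 1 ≤ E := by
      rw [hE]
      exact Nat.one_le_floor_iff _ |>.2 hY1
    obtain ⟨h1, h2⟩ := small_card α β hα hβ hI E
    refine ⟨h1, ?_⟩
    have h3 : ((Small α β E).ncard : ℝ) ≤ (2 * E + 1) ^ r * (M * E) := by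
      rw [← hM] at h2
      exact_mod_cast h2
    have hEY : (E : ℝ) ≤ Y := Nat.floor_le (by positivity)
    have hE1' : (1 : ℝ) ≤ E := by exact_mod_cast hE1
    have h4 : (2 * (E : ℝ) + 1) ^ r ≤ (3 * Y) ^ r := by
      apply pow_le_pow_left₀ (by positivity)
      linarith
    have h5 : (X : ℝ) ^ (θ * (1 + 1 / r)) = Y ^ r * Y := by
      rw [← pow_succ, hY, ← Real.rpow_natCast, ← Real.rpow_mul (by positivity)]
      congr 1
      push_cast
      field_simp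
    rw [h5]
    calc ((Small α β E).ncard : ℝ) ≤ (2 * E + 1) ^ r * (M * E) := h3
      _ ≤ (3 * Y) ^ r * (M * Y) := by gcongr
      _ = 3 ^ r * M * (Y ^ r * Y) := by rw [mul_pow]; ring

/-- `Fam F r t`: there are `r` independent rational numbers `α / β` and `t` independent rational
numbers `A / B` such that for all `l` in `S_F` outside a finite set and some integer `h`, modulo `l`
the `h`-th powers of the `α / β` are `1`, and the `A / B` are `h`-th powers. -/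
def Fam (F : ℕ → ℤ) (r t : ℕ) : Prop :=
  ∃ (α β : Fin r → ℕ) (A B : Fin t → ℕ), (∀ i, 0 < α i) ∧ (∀ i, 0 < β i) ∧ (∀ i, 0 < A i) ∧
    (∀ i, 0 < B i) ∧ Ind univ α β ∧ Ind univ A B ∧ ∃ Z : Finset ℕ, ∀ l ∈ SF F, l ∉ Z →
      (∀ i, ¬ l ∣ α i ∧ ¬ l ∣ β i) ∧ (∀ i, ¬ l ∣ A i ∧ ¬ l ∣ B i) ∧
      ∃ h : ℤ, (∀ i, (un l (α i) / un l (β i)) ^ h = 1) ∧
        ∀ i, ∃ y : (ZMod l)ˣ, y ^ h = un l (A i) / un l (B i)

lemma bound_of_fam {F : ℕ → ℤ} {r t : ℕ} (hr : 1 ≤ r) (ht : 1 ≤ t) (hf : Fam F r t)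
    (θ : ℝ) (h0 : 0 ≤ θ) (h1 : θ ≤ 1) (κ : ℝ) (hκ1 : θ * (1 + 1 / r) ≤ κ)
    (hκ2 : (1 - θ) * (1 + 1 / t) ≤ κ) :
    ∃ C : ℝ, ∀ X : ℕ, 1 ≤ X → (({l ∈ SF F | l ≤ X}).ncard : ℝ) ≤ C * (X : ℝ) ^ κ := by
  obtain ⟨α, β, A, B, hα, hβ, hA, hB, hI1, hI2, Z, hZ⟩ := hf
  obtain ⟨C1, hC1, hk1⟩ := key hr α β hα hβ hI1 θ h0
  obtain ⟨C2, hC2, hk2⟩ := key ht A B hA hB hI2 (1 - θ) (by linarith)
  refine ⟨Z.card + C1 + C2, fun X hX => ?_⟩
  have hX1 : (1 : ℝ) ≤ X := by exact_mod_cast hX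
  obtain ⟨E1, e1, f1, n1⟩ := hk1 X hX
  obtain ⟨E2, e2, f2, n2⟩ := hk2 X hX
  have hκ0 : 0 ≤ κ := le_trans (by positivity) hκ1
  have hsub : {l ∈ SF F | l ≤ X} ⊆ ((Z : Set ℕ) ∪ Small α β E1) ∪ Small A B E2 := by
    rintro l ⟨hl, hlX⟩
    by_contra hcon
    simp only [Set.mem_union, not_or] at hcon
    obtain ⟨⟨hlZ, hs1⟩, hs2⟩ := hcon
    obtain ⟨g1, g2, h, g3, g4⟩ := hZ l hl (by simpa using hlZ)
    have : Fact l.Prime := ⟨hl.1⟩
    set H : Subgroup (ZMod l)ˣ :=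
      Subgroup.closure (Set.range fun i => un l (α i) / un l (β i)) with hH
    set W : Subgroup (ZMod l)ˣ :=
      Subgroup.closure (Set.range fun i => un l (A i) / un l (B i)) with hW
    have hH1 : ∀ i, un l (α i) / un l (β i) ∈ H := fun i =>
      Subgroup.subset_closure ⟨i, rfl⟩
    have hW1 : ∀ i, un l (A i) / un l (B i) ∈ W := fun i =>
      Subgroup.subset_closure ⟨i, rfl⟩
    have c1 : (E1 + 1) ^ r ≤ Nat.card H := by
      by_contra hc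
      exact hs1 (small_of_card α β E1 hl.1 g1 H hH1 (by omega))
    have c2 : (E2 + 1) ^ t ≤ Nat.card W := by
      by_contra hc
      exact hs2 (small_of_card A B E2 hl.1 g2 W hW1 (by omega))
    have c3 : Nat.card H * Nat.card W ≤ Nat.card (ZMod l)ˣ := by
      apply card_mul_le h
      · intro x hx
        have h5 : H ≤ (zpowGroupHom h : (ZMod l)ˣ →* (ZMod l)ˣ).ker := by
          rw [hH, Subgroup.closure_le]
          rintro _ ⟨i, rfl⟩
          exact g3 i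
        exact h5 hx
      · intro x hx
        have h5 : W ≤ (zpowGroupHom h : (ZMod l)ˣ →* (ZMod l)ˣ).range := by
          rw [hW, Subgroup.closure_le]
          rintro _ ⟨i, rfl⟩
          obtain ⟨y, hy⟩ := g4 i
          exact ⟨y, hy⟩
        obtain ⟨y, hy⟩ := h5 hx
        exact ⟨y, hy⟩
    have c4 : Nat.card (ZMod l)ˣ = l - 1 := by
      rw [Nat.card_eq_fintype_card, ZMod.card_units_eq_totient, Nat.totient_prime hl.1]
    have c5 : (E1 + 1) ^ r * (E2 + 1) ^ t ≤ X := by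
      calc _ ≤ Nat.card H * Nat.card W := Nat.mul_le_mul c1 c2
        _ ≤ l - 1 := by rw [← c4]; exact c3
        _ ≤ X := by omega
    have c6 : (X : ℝ) < (((E1 + 1) ^ r : ℕ) : ℝ) * (((E2 + 1) ^ t : ℕ) : ℝ) := by
      calc (X : ℝ) = (X : ℝ) ^ θ * (X : ℝ) ^ (1 - θ) := by
            rw [← Real.rpow_add (by positivity)]
            simp
        _ < _ := mul_lt_mul'' e1 e2 (by positivity) (by positivity)
    have c7 : (((E1 + 1) ^ r : ℕ) : ℝ) * (((E2 + 1) ^ t : ℕ) : ℝ) ≤ X := by exact_mod_cast c5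
    linarith
  have hfin : (((Z : Set ℕ) ∪ Small α β E1) ∪ Small A B E2).Finite :=
    (Z.finite_toSet.union f1).union f2
  have d1 : ({l ∈ SF F | l ≤ X}).ncard ≤ Z.card + (Small α β E1).ncard + (Small A B E2).ncard := by
    calc _ ≤ _ := Set.ncard_le_ncard hsub hfin
      _ ≤ ((Z : Set ℕ) ∪ Small α β E1).ncard + (Small A B E2).ncard := Set.ncard_union_le _ _
      _ ≤ (Z : Set ℕ).ncard + (Small α β E1).ncard + (Small A B E2).ncard := by
        have := Set.ncard_union_le (Z : Set ℕ) (Small α β E1)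
        omega
      _ = _ := by rw [Set.ncard_coe_finset]
  have d2 : (({l ∈ SF F | l ≤ X}).ncard : ℝ) ≤
      Z.card + (Small α β E1).ncard + (Small A B E2).ncard := by exact_mod_cast d1
  have d3 : (X : ℝ) ^ (θ * (1 + 1 / r)) ≤ (X : ℝ) ^ κ := Real.rpow_le_rpow_of_exponent_le hX1 hκ1
  have d4 : (X : ℝ) ^ ((1 - θ) * (1 + 1 / t)) ≤ (X : ℝ) ^ κ :=
    Real.rpow_le_rpow_of_exponent_le hX1 hκ2
  have d5 : 1 ≤ (X : ℝ) ^ κ := Real.one_le_rpow hX1 hκ0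
  have d6 := mul_le_mul_of_nonneg_left d3 hC1
  have d7 := mul_le_mul_of_nonneg_left d4 hC2
  have d8 := mul_le_mul_of_nonneg_left d5 (Nat.cast_nonneg (α := ℝ) Z.card)
  calc (({l ∈ SF F | l ≤ X}).ncard : ℝ)
      ≤ Z.card + (Small α β E1).ncard + (Small A B E2).ncard := d2
    _ ≤ (Z.card + C1 + C2) * (X : ℝ) ^ κ := by nlinarith

end Pool.Agent.T2h24c
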