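import Mathlib

/-!
# Multiplicative functions periodic modulo primes: definitions
-/

set_option autoImplicit false

open Finset

namespace Pool.Agent.T2h24c

/-- the set `S_F` of the primes `l` such that `F` is periodic modulo `l` with period `l` -/
def SF (F : ℕ → ℤ) : Set ℕ :=
  {l | l.Prime ∧ ∀ n : ℕ, 1 ≤ n → F (n + l) ≡ F n [ZMOD (l : ℤ)]}

/-- the value at `n` of the `i`-th iterate of `|F|` -/
def it (F : ℕ → ℤ) (i n : ℕ) : ℕ := (fun m => (F m).natAbs)^[i] n

/-- The rational number `∏ᵢ |F^i(n)| ^ (c i)`, for the polynomial `c = ∑ᵢ c i T ^ i` with integral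
coefficients, where `F^i` is the `i`-th iterate of `|F|`: the value at `n` of the endomorphism `c(F)` of
the group of the positive rational numbers. -/
def w (F : ℕ → ℤ) (c : Polynomial ℤ) (n : ℕ) : ℚ :=
  ∏ i ∈ range (c.natDegree + 1), ((it F i n : ℕ) : ℚ) ^ c.coeff i

/-- The polynomials `c`, `d` are coprime over the rational numbers: `A c + B d` is a nonzero integer for
some integral polynomials `A` and `B`. -/
def Copr (c d : Polynomial ℤ) : Prop :=
  ∃ (A B : Polynomial ℤ) (R : ℤ), R ≠ 0 ∧ A * c + B * d = Polynomial.C R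

end Pool.Agent.T2h24c
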