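import Pool.Agent.T2h24c.Arith
import Pool.Agent.T2h24c.Count

set_option autoImplicit false

open Finset

namespace Pool.Agent.T2h24c

variable {F : ℕ → ℤ}

/-- the numerator of `w n = F n ^ (2 b) / n ^ (2 a)` -/
def nu (F : ℕ → ℤ) (a : ℤ) (b : ℕ) (n : ℕ) : ℕ := (F n).natAbs ^ (2 * b) * n ^ (-(2 * a)).toNat

/-- the denominator of `w n` -/
def de (a : ℤ) (n : ℕ) : ℕ := n ^ (2 * a).toNat

lemma nu_pos {a : ℤ} {b n : ℕ} (hn : 1 ≤ n) (h : F n ≠ 0) : 0 < nu F a b n :=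
  Nat.mul_pos (Nat.pow_pos (Int.natAbs_pos.2 h)) (Nat.pow_pos hn)

lemma de_pos {a : ℤ} {n : ℕ} (hn : 1 ≤ n) : 0 < de a n := Nat.pow_pos hn

lemma nu_mul (hc : ∀ m n : ℕ, 1 ≤ m → 1 ≤ n → F (m * n) = F m * F n) {a : ℤ} {b m n : ℕ}
    (hm : 1 ≤ m) (hn : 1 ≤ n) : nu F a b (m * n) = nu F a b m * nu F a b n := by
  unfold nu
  rw [hc m n hm hn, Int.natAbs_mul]
  ring

lemma de_mul {a : ℤ} {m n : ℕ} : de a (m * n) = de a m * de a n := by
  unfold de
  ring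

lemma w_pow (hF1 : F 1 = 1) (hc : ∀ m n : ℕ, 1 ≤ m → 1 ≤ n → F (m * n) = F m * F n)
    {l : ℕ} (hl : l ∈ SF F) (a : ℤ) (b : ℕ) : ∃ h : ℤ, ∀ n : ℕ, 1 ≤ n → ¬ l ∣ n →
      ¬ l ∣ nu F a b n ∧ ¬ l ∣ de a n ∧
        un l (nu F a b n) / un l (de a n) = un l n ^ h := by
  obtain ⟨g, hg⟩ := power hF1 hc hl
  refine ⟨g * (2 * b : ℕ) + (-(2 * a)).toNat - (2 * a).toNat, fun n hn hln => ?_⟩
  have hp := hl.1
  have h1 : ¬ l ∣ (F n).natAbs := fun h => ne_zero_mod hF1 hc hl hn hln (Int.natCast_dvd.2 h)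
  have h2 : ¬ l ∣ nu F a b n := by
    intro h
    rcases (hp.dvd_mul).1 h with h | h
    · exact h1 (hp.dvd_of_dvd_pow h)
    · exact hln (hp.dvd_of_dvd_pow h)
  have h3 : ¬ l ∣ de a n := fun h => hln (hp.dvd_of_dvd_pow h)
  refine ⟨h2, h3, ?_⟩
  have e1 : un l (nu F a b n) = (un l n ^ g) ^ (2 * b) * un l n ^ (-(2 * a)).toNat := by
    rw [Units.ext_iff, un_val hp h2]
    unfold nu
    push_cast
    rw [un_val hp hln]
    congr 1
    have h4 := hg n hn hln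
    have h5 : (((F n).natAbs : ℕ) : ZMod l) ^ (2 * b) = ((F n : ℤ) : ZMod l) ^ (2 * b) := by
      rw [pow_mul, pow_mul]
      congr 1
      have h6 : (((F n).natAbs : ℤ)) ^ 2 = (F n) ^ 2 := Int.natAbs_sq (F n)
      have h7 := congrArg (fun z : ℤ => (z : ZMod l)) h6
      push_cast at h7
      simpa using h7
    rw [h5, h4]
  have e2 : un l (de a n) = un l n ^ (2 * a).toNat := by
    rw [Units.ext_iff, un_val hp h3]
    unfold de
    push_cast
    rw [un_val hp hln]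
  rw [e1, e2, zpow_sub, zpow_add, zpow_mul, zpow_natCast, zpow_natCast, zpow_natCast,
    div_eq_mul_inv]

/-- the kernel -/
lemma ker_pow {a : ℤ} {b : ℕ} {l : ℕ} (hp : l.Prime) {h : ℤ}
    (hh : ∀ n : ℕ, 1 ≤ n → ¬ l ∣ n → ¬ l ∣ nu F a b n ∧ ¬ l ∣ de a n ∧
        un l (nu F a b n) / un l (de a n) = un l n ^ h) {α β : ℕ} (hα : 1 ≤ α) (hβ : 1 ≤ β)
    (hlα : ¬ l ∣ α) (hlβ : ¬ l ∣ β)
    (he : nu F a b α * de a β = nu F a b β * de a α) : (un l α / un l β) ^ h = 1 := by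
  obtain ⟨a1, a2, a3⟩ := hh α hα hlα
  obtain ⟨b1, b2, b3⟩ := hh β hβ hlβ
  rw [div_zpow, ← a3, ← b3, div_div_div_eq, div_eq_one, Units.ext_iff]
  push_cast
  rw [un_val hp a1, un_val hp a2, un_val hp b1, un_val hp b2]
  have := congrArg (fun z : ℕ => (z : ZMod l)) he
  push_cast at this
  rw [this]
  ring

lemma prod_pow_map (G : ℕ → ℕ) (hG1 : G 1 = 1)
    (hG : ∀ m n : ℕ, 1 ≤ m → 1 ≤ n → G (m * n) = G m * G n) (J : Finset ℕ)
    (hJ : ∀ q ∈ J, 1 ≤ q) (e : ℕ → ℕ) : G (∏ q ∈ J, q ^ e q) = ∏ q ∈ J, G q ^ e q := by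
  classical
  have hpow : ∀ q : ℕ, 1 ≤ q → ∀ j : ℕ, G (q ^ j) = G q ^ j := by
    intro q hq j
    induction j with
    | zero => simpa using hG1
    | succ j ih => rw [pow_succ, hG _ _ (Nat.one_le_pow _ _ hq) hq, ih, pow_succ]
  induction J using Finset.induction_on with
  | empty => simpa using hG1
  | insert q J hq ih =>
    have h1 : 1 ≤ q := hJ q (mem_insert_self _ _)
    have h2 : ∀ x ∈ J, 1 ≤ x := fun x hx => hJ x (mem_insert_of_mem hx)
    rw [prod_insert hq, prod_insert hq, hG _ _ (Nat.one_le_pow _ _ h1)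
      (Finset.one_le_prod' fun x hx => Nat.one_le_pow _ _ (h2 x hx)), ih h2, hpow q h1]

lemma dich (A B : ℕ → ℕ) (m : ℕ) :
    (∃ J : Finset ℕ, J.card = m ∧ (∀ p ∈ J, p.Prime) ∧ Ind J A B) ∨
    ∃ J : Finset ℕ, (∀ p ∈ J, p.Prime) ∧ Ind J A B ∧
      ∀ p : ℕ, p.Prime → p ∉ J → ¬ Ind (insert p J) A B := by
  classical
  by_contra hcon
  push Not at hcon
  obtain ⟨h1, h2⟩ := hcon
  have key : ∀ n : ℕ, ∃ J : Finset ℕ, J.card = n ∧ (∀ p ∈ J, p.Prime) ∧ Ind J A B := by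
    intro n
    induction n with
    | zero =>
      refine ⟨∅, rfl, by simp, ?_⟩
      rintro d ⟨i, hi, _⟩
      simp at hi
    | succ n ih =>
      obtain ⟨J, hJ1, hJ2, hJ3⟩ := ih
      obtain ⟨p, hp1, hp2, hp3⟩ := h2 J hJ2 hJ3
      refine ⟨insert p J, by rw [card_insert_of_notMem hp2, hJ1], ?_, hp3⟩
      intro q hq
      rcases mem_insert.1 hq with rfl | hq
      · exact hp1
      · exact hJ2 q hq
  obtain ⟨J, hJ1, hJ2, hJ3⟩ := key m
  exact h1 J hJ1 hJ2 hJ3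

lemma ind_comp {m : ℕ} (A B : ℕ → ℕ) (J : Finset ℕ) (f : Fin m → ℕ) (hf : Function.Injective f)
    (hJ : univ.image f = J) (hI : Ind J A B) : Ind univ (fun i => A (f i)) (fun i => B (f i)) := by
  classical
  rintro d ⟨i, -, hi⟩
  set d' : ℕ → ℤ := Function.extend f d 0 with hd'
  have h1 : ∀ i, d' (f i) = d i := fun i => hf.extend_apply d 0 i
  have h2 := hI d' ⟨f i, by rw [← hJ]; exact mem_image_of_mem f (mem_univ i), by rw [h1]; exact hi⟩
  have h3 : ∀ A B : ℕ → ℕ, PP J A B d' = PP univ (fun i => A (f i)) (fun i => B (f i)) d := by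
    intro A B
    unfold PP
    rw [← hJ, prod_image fun x _ y _ h => hf h]
    exact prod_congr rfl fun i _ => by rw [h1]
  rw [h3, h3] at h2
  exact h2

lemma ind_one {x y : ℕ} (h : x ≠ y) (hx : 0 < x) (hy : 0 < y) :
    Ind univ (fun _ : Fin 1 => x) (fun _ : Fin 1 => y) := by
  rintro d ⟨i, -, hi⟩ he
  have hi0 : i = 0 := Subsingleton.elim _ _
  subst hi0
  unfold PP at he
  simp only [univ_unique, Fin.default_eq_zero, Fin.isValue, prod_singleton] at he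
  apply h
  rcases lt_or_gt_of_ne hi with h1 | h1
  · have e1 : (d 0).toNat = 0 := by omega
    rw [e1, pow_zero, pow_zero, one_mul, one_mul] at he
    exact (Nat.pow_left_injective (by omega) he).symm
  · have e1 : (-d 0).toNat = 0 := by omega
    rw [e1, pow_zero, pow_zero, mul_one, mul_one] at he
    exact Nat.pow_left_injective (by omega) he

end Pool.Agent.T2h24c
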