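import Pool.Agent.T2h24c.Several

set_option autoImplicit false

open Finset

namespace Pool.Agent.T2h24c.Gen

variable {F : ℕ → ℤ}

/-- `w n = A n / B n` is a completely multiplicative function which is a power map modulo `l`, for all
`l` in `S_F` -/
structure WP (F : ℕ → ℤ) (A B : ℕ → ℕ) : Prop where
  A1 : A 1 = 1
  B1 : B 1 = 1
  Amul : ∀ m n : ℕ, 1 ≤ m → 1 ≤ n → A (m * n) = A m * A n
  Bmul : ∀ m n : ℕ, 1 ≤ m → 1 ≤ n → B (m * n) = B m * B n
  Apos : ∀ n : ℕ, 1 ≤ n → 0 < A n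
  Bpos : ∀ n : ℕ, 1 ≤ n → 0 < B n
  pow : ∀ l ∈ SF F, ∃ h : ℤ, ∀ n : ℕ, 1 ≤ n → ¬ l ∣ n → ¬ l ∣ A n ∧ ¬ l ∣ B n ∧
        un l (A n) / un l (B n) = un l n ^ h

/-- the kernel -/
lemma ker_pow {A B : ℕ → ℕ} {l : ℕ} (hp : l.Prime) {h : ℤ}
    (hh : ∀ n : ℕ, 1 ≤ n → ¬ l ∣ n → ¬ l ∣ A n ∧ ¬ l ∣ B n ∧
        un l (A n) / un l (B n) = un l n ^ h) {α β : ℕ} (hα : 1 ≤ α) (hβ : 1 ≤ β)
    (hlα : ¬ l ∣ α) (hlβ : ¬ l ∣ β)
    (he : A α * B β = A β * B α) : (un l α / un l β) ^ h = 1 := by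
  obtain ⟨a1, a2, a3⟩ := hh α hα hlα
  obtain ⟨b1, b2, b3⟩ := hh β hβ hlβ
  rw [div_zpow, ← a3, ← b3, div_div_div_eq, div_eq_one, Units.ext_iff]
  push_cast
  rw [un_val hp a1, un_val hp a2, un_val hp b1, un_val hp b2]
  have := congrArg (fun z : ℕ => (z : ZMod l)) he
  push_cast at this
  rw [this]
  ring

/-- many independent values -/
lemma fam_values {A B : ℕ → ℕ} (hw : WP F A B) {α β : ℕ} (hα : 1 ≤ α) (hβ : 1 ≤ β)
    (hαβ : α ≠ β) (he : A α * B β = A β * B α) {m : ℕ} (J : Finset ℕ)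
    (hJm : J.card = m) (hJp : ∀ p ∈ J, p.Prime) (hJ : Ind J A B) : Fam F 1 m := by
  classical
  set f := J.orderEmbOfFin hJm with hf
  have himg : univ.image f = J := by
    rw [hf]
    exact Finset.image_orderEmbOfFin_univ J hJm
  have hfJ : ∀ i, f i ∈ J := fun i => by
    rw [← himg]
    exact mem_image_of_mem _ (mem_univ i)
  have hf1 : ∀ i, 1 ≤ f i := fun i => (hJp _ (hfJ i)).one_lt.le
  refine ⟨fun _ => α, fun _ => β, fun i => A (f i), fun i => B (f i), fun _ => hα,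
    fun _ => hβ, fun i => hw.Apos _ (hf1 i), fun i => hw.Bpos _ (hf1 i),
    ind_one hαβ hα hβ, ind_comp _ _ J f f.injective himg hJ,
    J ∪ α.primeFactors ∪ β.primeFactors, fun l hl hlZ => ?_⟩
  obtain ⟨h, hh⟩ := hw.pow l hl
  rw [mem_union, mem_union, not_or, not_or] at hlZ
  obtain ⟨⟨z1, z2⟩, z3⟩ := hlZ
  have hlα : ¬ l ∣ α := fun h => z2 (Nat.mem_primeFactors.2 ⟨hl.1, h, by omega⟩)
  have hlβ : ¬ l ∣ β := fun h => z3 (Nat.mem_primeFactors.2 ⟨hl.1, h, by omega⟩)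
  have hlf : ∀ i, ¬ l ∣ f i := fun i h => z1 (by
    rw [(Nat.prime_dvd_prime_iff_eq hl.1 (hJp _ (hfJ i))).1 h]
    exact hfJ i)
  exact ⟨fun _ => ⟨hlα, hlβ⟩, fun i => ⟨(hh _ (hf1 i) (hlf i)).1, (hh _ (hf1 i) (hlf i)).2.1⟩, h,
    fun _ => ker_pow hl.1 hh hα hβ hlα hlβ he,
    fun i => ⟨un l (f i), ((hh _ (hf1 i) (hlf i)).2.2).symm⟩⟩

/-- many independent elements of the kernel -/
lemma fam_kernel {A B : ℕ → ℕ} (hw : WP F A B) {q : ℕ} (hq : q.Prime)
    (hqw : A q ≠ B q) (m : ℕ) (J : Finset ℕ) (hJp : ∀ p ∈ J, p.Prime)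
    (hJ : Ind J A B)
    (hmax : ∀ p : ℕ, p.Prime → p ∉ J → ¬ Ind (insert p J) A B) : Fam F m 1 := by
  classical
  -- the relations
  have hrel : ∀ p : ℕ, p.Prime → p ∉ J → ∃ d : ℕ → ℤ, d p ≠ 0 ∧
      PP (insert p J) A B d = PP (insert p J) B A d := by
    intro p hp hpJ
    have h1 := hmax p hp hpJ
    unfold Ind at h1
    push Not at h1
    obtain ⟨d, ⟨i, hi, hdi⟩, he⟩ := h1
    refine ⟨d, ?_, he⟩
    intro hdp
    have hiJ : i ∈ J := by
      rcases mem_insert.1 hi with h | h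
      · rw [h] at hdi
        exact absurd hdp hdi
      · exact h
    apply hJ d ⟨i, hiJ, hdi⟩
    unfold PP at he ⊢
    rw [prod_insert hpJ, prod_insert hpJ, hdp] at he
    simpa using he
  -- `m` primes outside `J`
  have hinf : ({p : ℕ | p.Prime} \ (J : Set ℕ)).Infinite :=
    Nat.infinite_setOfPred_prime.sdiff J.finite_toSet
  obtain ⟨T, hT1, hT2⟩ := hinf.exists_subset_card_eq m
  set f := T.orderEmbOfFin hT2 with hf
  have hfT : ∀ i, f i ∈ T := fun i => Finset.orderEmbOfFin_mem T hT2 i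
  have hfp : ∀ i, (f i).Prime := fun i => (hT1 (hfT i)).1
  have hfJ : ∀ i, f i ∉ J := fun i h => (hT1 (hfT i)).2 (by exact_mod_cast h)
  choose d hd0 hd using fun i => hrel (f i) (hfp i) (hfJ i)
  have hIp : ∀ i, ∀ x ∈ insert (f i) J, x.Prime := by
    intro i x hx
    rcases mem_insert.1 hx with rfl | h
    · exact hfp i
    · exact hJp x h
  have hI1 : ∀ i, ∀ x ∈ insert (f i) J, 1 ≤ x := fun i x hx => (hIp i x hx).one_lt.le
  set α : Fin m → ℕ := fun i => ∏ x ∈ insert (f i) J, x ^ (d i x).toNat with hα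
  set β : Fin m → ℕ := fun i => ∏ x ∈ insert (f i) J, x ^ (-d i x).toNat with hβ
  have hα1 : ∀ i, 1 ≤ α i := fun i =>
    Finset.one_le_prod' fun x hx => Nat.one_le_pow _ _ (hI1 i x hx)
  have hβ1 : ∀ i, 1 ≤ β i := fun i =>
    Finset.one_le_prod' fun x hx => Nat.one_le_pow _ _ (hI1 i x hx)
  -- valuations
  have hval : ∀ (i j : Fin m) (e : ℕ → ℕ),
      (∏ x ∈ insert (f i) J, x ^ e x).factorization (f j) = if i = j then e (f j) else 0 := by
    intro i j e
    rw [Nat.factorization_prod_apply fun x hx => (pow_pos (hI1 i x hx) _).ne']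
    have h1 : ∀ x ∈ insert (f i) J, (x ^ e x).factorization (f j) =
        if x = f j then e x else 0 := by
      intro x hx
      rw [Nat.factorization_pow, (hIp i x hx).factorization]
      simp only [Finsupp.smul_apply, Finsupp.single_apply, smul_eq_mul]
      split_ifs <;> simp
    rw [sum_congr rfl h1, sum_ite_eq']
    by_cases hij : i = j
    · subst hij
      simp
    · have h2 : f j ∉ insert (f i) J := by
        rw [mem_insert, not_or]
        exact ⟨fun h => hij (f.injective h).symm, hfJ j⟩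
      rw [if_neg h2, if_neg hij]
  have hIαβ : Ind univ α β := by
    rintro c ⟨j, -, hj⟩ he
    have hv : ∀ (u v : Fin m → ℕ) (su sv : Fin m → ℕ → ℕ),
        (∀ i, u i = ∏ x ∈ insert (f i) J, x ^ su i x) →
        (∀ i, v i = ∏ x ∈ insert (f i) J, x ^ sv i x) →
        (∀ i, 1 ≤ u i) → (∀ i, 1 ≤ v i) →
        (PP univ u v c).factorization (f j) =
          (c j).toNat * su j (f j) + (-c j).toNat * sv j (f j) := by
      intro u v su sv hu hv hu1 hv1
      unfold PP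
      rw [Nat.factorization_prod_apply fun i _ =>
        (Nat.mul_pos (pow_pos (hu1 i) _) (pow_pos (hv1 i) _)).ne']
      have h1 : ∀ i ∈ (univ : Finset (Fin m)),
          (u i ^ (c i).toNat * v i ^ (-c i).toNat).factorization (f j) =
          if i = j then (c i).toNat * su i (f j) + (-c i).toNat * sv i (f j) else 0 := by
        intro i _
        rw [Nat.factorization_mul (pow_pos (hu1 i) _).ne' (pow_pos (hv1 i) _).ne',
          Nat.factorization_pow, Nat.factorization_pow]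
        simp only [Finsupp.add_apply, Finsupp.smul_apply, smul_eq_mul]
        rw [hu i, hv i, hval i j, hval i j]
        split_ifs <;> simp
      rw [sum_congr rfl h1, sum_ite_eq']
      simp
    have h1 := hv α β (fun i x => (d i x).toNat) (fun i x => (-d i x).toNat) (fun _ => rfl)
      (fun _ => rfl) hα1 hβ1
    have h2 := hv β α (fun i x => (-d i x).toNat) (fun i x => (d i x).toNat) (fun _ => rfl)
      (fun _ => rfl) hβ1 hα1
    rw [he, h2] at h1
    have h3 := hd0 j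
    rcases lt_or_gt_of_ne hj with g1 | g1 <;> rcases lt_or_gt_of_ne h3 with g2 | g2
    · have e1 : (c j).toNat = 0 := by omega
      have e2 : (d j (f j)).toNat = 0 := by omega
      simp only [e1, e2, zero_mul, mul_zero, zero_add, add_zero] at h1
      have e3 : 0 < (-c j).toNat := by omega
      have e4 : 0 < (-d j (f j)).toNat := by omega
      have := Nat.mul_pos e3 e4
      omega
    · have e1 : (c j).toNat = 0 := by omega
      have e2 : (-d j (f j)).toNat = 0 := by omega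
      simp only [e1, e2, zero_mul, mul_zero, zero_add, add_zero] at h1
      have e3 : 0 < (-c j).toNat := by omega
      have e4 : 0 < (d j (f j)).toNat := by omega
      have := Nat.mul_pos e3 e4
      omega
    · have e1 : (-c j).toNat = 0 := by omega
      have e2 : (d j (f j)).toNat = 0 := by omega
      simp only [e1, e2, zero_mul, mul_zero, zero_add, add_zero] at h1
      have e3 : 0 < (c j).toNat := by omega
      have e4 : 0 < (-d j (f j)).toNat := by omega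
      have := Nat.mul_pos e3 e4
      omega
    · have e1 : (-c j).toNat = 0 := by omega
      have e2 : (-d j (f j)).toNat = 0 := by omega
      simp only [e1, e2, zero_mul, mul_zero, zero_add, add_zero] at h1
      have e3 : 0 < (c j).toNat := by omega
      have e4 : 0 < (d j (f j)).toNat := by omega
      have := Nat.mul_pos e3 e4
      omega
  have hker : ∀ i, A (α i) * B (β i) = A (β i) * B (α i) := by
    intro i
    have h1 := hd i
    unfold PP at h1
    rw [prod_mul_distrib, prod_mul_distrib] at h1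
    have e1 := prod_pow_map A hw.A1 hw.Amul
      (insert (f i) J) (hI1 i)
    have e2 := prod_pow_map B hw.B1 hw.Bmul (insert (f i) J) (hI1 i)
    rw [hα, hβ]
    simp only
    rw [e1, e1, e2, e2, h1]
    ring
  refine ⟨α, β, fun _ => A q, fun _ => B q, fun i => hα1 i, fun i => hβ1 i,
    fun _ => hw.Apos _ hq.one_lt.le, fun _ => hw.Bpos _ hq.one_lt.le, hIαβ,
    ind_one hqw (hw.Apos _ hq.one_lt.le) (hw.Bpos _ hq.one_lt.le), insert q (J ∪ univ.image f), fun l hl hlZ => ?_⟩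
  obtain ⟨h, hh⟩ := hw.pow l hl
  rw [mem_insert, mem_union, not_or, not_or] at hlZ
  obtain ⟨z1, z2, z3⟩ := hlZ
  have hlq : ¬ l ∣ q := fun h => z1 ((Nat.prime_dvd_prime_iff_eq hl.1 hq).1 h)
  have hlI : ∀ i, ∀ e : ℕ → ℕ, ¬ l ∣ ∏ x ∈ insert (f i) J, x ^ e x := by
    intro i e h
    obtain ⟨x, hx, hlx⟩ := (hl.1.prime.dvd_finsetProd_iff _).1 h
    have h1 := (Nat.prime_dvd_prime_iff_eq hl.1 (hIp i x hx)).1 (hl.1.dvd_of_dvd_pow hlx)
    rcases mem_insert.1 hx with h2 | h2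
    · exact z3 (by
        rw [h1, h2]
        exact mem_image_of_mem _ (mem_univ i))
    · exact z2 (by rw [h1]; exact h2)
  exact ⟨fun i => ⟨hlI i _, hlI i _⟩,
    fun _ => ⟨(hh _ hq.one_lt.le hlq).1, (hh _ hq.one_lt.le hlq).2.1⟩, h,
    fun i => ker_pow hl.1 hh (hα1 i) (hβ1 i) (hlI i _) (hlI i _) (hker i),
    fun _ => ⟨un l q, ((hh _ hq.one_lt.le hlq).2.2).symm⟩⟩


/-- the bound for an abstract `w` -/
theorem bound {A B : ℕ → ℕ} (hw : WP F A B) {α β : ℕ} (hα : 1 ≤ α) (hβ : 1 ≤ β)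
    (hαβ : α ≠ β) (he : A α * B β = A β * B α) {n : ℕ} (hn : 1 ≤ n) (hn' : A n ≠ B n) :
    ∀ ε : ℝ, 0 < ε → ∃ C : ℝ, ∀ X : ℕ, 1 ≤ X →
      (({l ∈ SF F | l ≤ X}).ncard : ℝ) ≤ C * (X : ℝ) ^ (2 / 3 + ε) := by
  have hq : ∃ q : ℕ, q.Prime ∧ A q ≠ B q := by
    by_contra hcon
    push Not at hcon
    apply hn'
    clear hn' he hαβ hα hβ
    induction n using Nat.recOnMul with
    | zero => omega
    | one => rw [hw.A1, hw.B1]
    | prime p hp => exact hcon p hp
    | mul x y hx hy =>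
      have hx1 : 1 ≤ x := Nat.pos_of_ne_zero (by rintro rfl; simp at hn)
      have hy1 : 1 ≤ y := Nat.pos_of_ne_zero (by rintro rfl; simp at hn)
      rw [hw.Amul x y hx1 hy1, hw.Bmul x y hx1 hy1, hx hx1, hy hy1]
  obtain ⟨q, hq, hqw⟩ := hq
  intro ε hε
  obtain ⟨m, hm⟩ := exists_nat_gt (2 / (3 * ε))
  have hm0 : (0 : ℝ) < m := lt_trans (by positivity) hm
  have hm1 : 1 ≤ m := by
    have : 0 < m := by exact_mod_cast hm0
    omega
  have hmε : 2 / 3 * (1 + 1 / (m : ℝ)) ≤ 2 / 3 + ε := by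
    have h1 : 2 / 3 * (1 / (m : ℝ)) ≤ ε := by
      rw [div_lt_iff₀ (by positivity)] at hm
      rw [mul_one_div, div_le_iff₀ hm0]
      linarith
    linarith
  rcases dich A B m with ⟨J, hJm, hJp, hJ⟩ | ⟨J, hJp, hJ, hmax⟩
  · have hf := fam_values hw hα hβ hαβ he J hJm hJp hJ
    refine bound_of_fam le_rfl hm1 hf (1 / 3) (by norm_num) (by norm_num) _ ?_ ?_
    · norm_num
      linarith
    · rw [show (1 : ℝ) - 1 / 3 = 2 / 3 by norm_num]
      exact hmε
  · have hf := fam_kernel hw hq hqw m J hJp hJ hmax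
    refine bound_of_fam hm1 le_rfl hf (2 / 3) (by norm_num) (by norm_num) _ hmε ?_
    norm_num
    linarith

lemma it_succ (i n : ℕ) : it F (i + 1) n = (F (it F i n)).natAbs := by
  unfold it
  rw [Function.iterate_succ_apply']

/-- `∏_(i < k) |F^i(n)| ^ (2 c i)⁺` -/
def num (F : ℕ → ℤ) (k : ℕ) (c : ℕ → ℤ) (n : ℕ) : ℕ :=
  ∏ i ∈ range k, it F i n ^ (2 * c i).toNat

lemma it_pos (hF0 : ∀ n : ℕ, 1 ≤ n → F n ≠ 0) (i : ℕ) {n : ℕ} (hn : 1 ≤ n) : 1 ≤ it F i n := by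
  induction i with
  | zero => exact hn
  | succ i ih =>
    rw [it_succ]
    exact Int.natAbs_pos.2 (hF0 _ ih)

lemma it_mul (hc : ∀ m n : ℕ, 1 ≤ m → 1 ≤ n → F (m * n) = F m * F n)
    (hF0 : ∀ n : ℕ, 1 ≤ n → F n ≠ 0) (i : ℕ) {m n : ℕ} (hm : 1 ≤ m) (hn : 1 ≤ n) :
    it F i (m * n) = it F i m * it F i n := by
  induction i with
  | zero => rfl
  | succ i ih =>
    rw [it_succ, it_succ, it_succ, ih, hc _ _ (it_pos hF0 i hm) (it_pos hF0 i hn), Int.natAbs_mul]

lemma it_one (hF1 : F 1 = 1) (i : ℕ) : it F i 1 = 1 := by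
  induction i with
  | zero => rfl
  | succ i ih => rw [it_succ, ih, hF1]; rfl

lemma it_ndvd (hF1 : F 1 = 1) (hc : ∀ m n : ℕ, 1 ≤ m → 1 ≤ n → F (m * n) = F m * F n)
    (hF0 : ∀ n : ℕ, 1 ≤ n → F n ≠ 0) {l : ℕ} (hl : l ∈ SF F) (i : ℕ) {n : ℕ} (hn : 1 ≤ n)
    (hln : ¬ l ∣ n) : ¬ l ∣ it F i n := by
  induction i with
  | zero => exact hln
  | succ i ih =>
    rw [it_succ]
    exact fun h => ne_zero_mod hF1 hc hl (it_pos hF0 i hn) ih (Int.natCast_dvd.2 h)

lemma it_pow (hF1 : F 1 = 1) (hc : ∀ m n : ℕ, 1 ≤ m → 1 ≤ n → F (m * n) = F m * F n)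
    (hF0 : ∀ n : ℕ, 1 ≤ n → F n ≠ 0) {l : ℕ} (hl : l ∈ SF F) {g : ℤ}
    (hg : ∀ n : ℕ, 1 ≤ n → ¬ l ∣ n →
      ((F n : ℤ) : ZMod l) = ((un l n ^ g : (ZMod l)ˣ) : ZMod l)) (i : ℕ) {n : ℕ} (hn : 1 ≤ n)
    (hln : ¬ l ∣ n) : un l (it F i n) ^ 2 = (un l n ^ (g ^ i)) ^ 2 := by
  induction i with
  | zero => simp [it]
  | succ i ih =>
    have h1 : un l (it F (i + 1) n) ^ 2 = (un l (it F i n) ^ g) ^ 2 := by
      have h2 := it_ndvd hF1 hc hF0 hl (i + 1) hn hln
      have h3 := it_ndvd hF1 hc hF0 hl i hn hln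
      rw [Units.ext_iff]
      push_cast
      rw [un_val hl.1 h2, it_succ]
      have h4 := hg (it F i n) (it_pos hF0 i hn) h3
      have h5 : (((F (it F i n)).natAbs : ℕ) : ZMod l) ^ 2 = ((F (it F i n) : ℤ) : ZMod l) ^ 2 := by
        have h6 : (((F (it F i n)).natAbs : ℤ)) ^ 2 = (F (it F i n)) ^ 2 := Int.natAbs_sq _
        have h7 := congrArg (fun z : ℤ => (z : ZMod l)) h6
        push_cast at h7
        simpa using h7
      rw [h5, h4]
    rw [h1, ← zpow_natCast, ← zpow_mul, mul_comm, zpow_mul, zpow_natCast, ih,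
      ← zpow_natCast, ← zpow_natCast, ← zpow_mul, ← zpow_mul, ← zpow_mul]
    congr 1
    push_cast
    ring

lemma wp (hF1 : F 1 = 1) (hc : ∀ m n : ℕ, 1 ≤ m → 1 ≤ n → F (m * n) = F m * F n)
    (hF0 : ∀ n : ℕ, 1 ≤ n → F n ≠ 0) (k : ℕ) (c : ℕ → ℤ) :
    WP F (num F k c) (num F k fun i => -c i) := by
  have hnum1 : ∀ c : ℕ → ℤ, num F k c 1 = 1 := fun c => by
    unfold num
    exact prod_eq_one fun i _ => by rw [it_one hF1, one_pow]
  have hnummul : ∀ c : ℕ → ℤ, ∀ m n : ℕ, 1 ≤ m → 1 ≤ n → num F k c (m * n) =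
      num F k c m * num F k c n := fun c m n hm hn => by
    unfold num
    rw [← prod_mul_distrib]
    exact prod_congr rfl fun i _ => by rw [it_mul hc hF0 i hm hn, mul_pow]
  have hnumpos : ∀ c : ℕ → ℤ, ∀ n : ℕ, 1 ≤ n → 0 < num F k c n := fun c n hn =>
    prod_pos fun i _ => Nat.pow_pos (it_pos hF0 i hn)
  refine ⟨hnum1 _, hnum1 _, hnummul _, hnummul _, hnumpos _, hnumpos _, fun l hl => ?_⟩
  obtain ⟨g, hg⟩ := power hF1 hc hl
  have hp := hl.1
  refine ⟨∑ i ∈ range k, 2 * c i * g ^ i, fun n hn hln => ?_⟩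
  have hnd : ∀ c : ℕ → ℤ, ¬ l ∣ num F k c n := fun c h => by
    obtain ⟨i, _, hi⟩ := (hp.prime.dvd_finsetProd_iff _).1 h
    exact it_ndvd hF1 hc hF0 hl i hn hln (hp.dvd_of_dvd_pow hi)
  refine ⟨hnd _, hnd _, ?_⟩
  have hun : ∀ c : ℕ → ℤ, un l (num F k c n) = ∏ i ∈ range k, un l (it F i n) ^ (2 * c i).toNat := by
    intro c
    rw [Units.ext_iff, un_val hp (hnd c)]
    unfold num
    push_cast
    exact prod_congr rfl fun i _ => by rw [un_val hp (it_ndvd hF1 hc hF0 hl i hn hln)]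
  rw [hun, hun, ← prod_div_distrib]
  have h1 : ∀ i ∈ range k, un l (it F i n) ^ (2 * c i).toNat /
      un l (it F i n) ^ (2 * -c i).toNat = un l n ^ (2 * c i * g ^ i) := by
    intro i _
    rw [← zpow_natCast, ← zpow_natCast, div_eq_mul_inv, ← zpow_sub]
    have h2 : ((2 * c i).toNat : ℤ) - ((2 * -c i).toNat : ℤ) = ((2 : ℕ) : ℤ) * c i := by
      push_cast
      omega
    rw [h2, zpow_mul, zpow_natCast, it_pow hF1 hc hF0 hl hg i hn hln, ← zpow_natCast,
      ← zpow_mul, ← zpow_mul]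
    congr 1
    push_cast
    ring
  rw [prod_congr rfl h1]
  have h3 : ∀ s : Finset ℕ, ∏ i ∈ s, un l n ^ (2 * c i * g ^ i) =
      un l n ^ (∑ i ∈ s, 2 * c i * g ^ i) := by
    intro s
    induction s using Finset.induction_on with
    | empty => simp
    | insert j s hj ih => rw [prod_insert hj, sum_insert hj, ih, zpow_add]
  exact h3 _

end Pool.Agent.T2h24c.Gen
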