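import Pool.Agent.T2h24c.Fams

set_option autoImplicit false

open Finset

namespace Pool.Agent.T2h24c

variable {F : ℕ → ℤ}

/-- many independent values -/
lemma fam_values (hF1 : F 1 = 1) (hc : ∀ m n : ℕ, 1 ≤ m → 1 ≤ n → F (m * n) = F m * F n)
    (hF0 : ∀ n : ℕ, 1 ≤ n → F n ≠ 0) (a : ℤ) (b : ℕ) {α β : ℕ} (hα : 1 ≤ α) (hβ : 1 ≤ β)
    (hαβ : α ≠ β) (he : nu F a b α * de a β = nu F a b β * de a α) {m : ℕ} (J : Finset ℕ)
    (hJm : J.card = m) (hJp : ∀ p ∈ J, p.Prime) (hJ : Ind J (nu F a b) (de a)) : Fam F 1 m := by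
  classical
  set f := J.orderEmbOfFin hJm with hf
  have himg : univ.image f = J := by
    rw [hf]
    exact Finset.image_orderEmbOfFin_univ J hJm
  have hfJ : ∀ i, f i ∈ J := fun i => by
    rw [← himg]
    exact mem_image_of_mem _ (mem_univ i)
  have hf1 : ∀ i, 1 ≤ f i := fun i => (hJp _ (hfJ i)).one_lt.le
  refine ⟨fun _ => α, fun _ => β, fun i => nu F a b (f i), fun i => de a (f i), fun _ => hα,
    fun _ => hβ, fun i => nu_pos (hf1 i) (hF0 _ (hf1 i)), fun i => de_pos (hf1 i),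
    ind_one hαβ hα hβ, ind_comp _ _ J f f.injective himg hJ,
    J ∪ α.primeFactors ∪ β.primeFactors, fun l hl hlZ => ?_⟩
  obtain ⟨h, hh⟩ := w_pow hF1 hc hl a b
  rw [mem_union, mem_union, not_or, not_or] at hlZ
  obtain ⟨⟨z1, z2⟩, z3⟩ := hlZ
  have hlα : ¬ l ∣ α := fun h => z2 (Nat.mem_primeFactors.2 ⟨hl.1, h, by omega⟩)
  have hlβ : ¬ l ∣ β := fun h => z3 (Nat.mem_primeFactors.2 ⟨hl.1, h, by omega⟩)
  have hlf : ∀ i, ¬ l ∣ f i := fun i h => z1 (by
    rw [(Nat.prime_dvd_prime_iff_eq hl.1 (hJp _ (hfJ i))).1 h]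
    exact hfJ i)
  exact ⟨fun _ => ⟨hlα, hlβ⟩, fun i => ⟨(hh _ (hf1 i) (hlf i)).1, (hh _ (hf1 i) (hlf i)).2.1⟩, h,
    fun _ => ker_pow hl.1 hh hα hβ hlα hlβ he,
    fun i => ⟨un l (f i), ((hh _ (hf1 i) (hlf i)).2.2).symm⟩⟩

/-- many independent elements of the kernel -/
lemma fam_kernel (hF1 : F 1 = 1) (hc : ∀ m n : ℕ, 1 ≤ m → 1 ≤ n → F (m * n) = F m * F n)
    (hF0 : ∀ n : ℕ, 1 ≤ n → F n ≠ 0) (a : ℤ) (b : ℕ) {q : ℕ} (hq : q.Prime)
    (hqw : nu F a b q ≠ de a q) (m : ℕ) (J : Finset ℕ) (hJp : ∀ p ∈ J, p.Prime)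
    (hJ : Ind J (nu F a b) (de a))
    (hmax : ∀ p : ℕ, p.Prime → p ∉ J → ¬ Ind (insert p J) (nu F a b) (de a)) : Fam F m 1 := by
  classical
  -- the relations
  have hrel : ∀ p : ℕ, p.Prime → p ∉ J → ∃ d : ℕ → ℤ, d p ≠ 0 ∧
      PP (insert p J) (nu F a b) (de a) d = PP (insert p J) (de a) (nu F a b) d := by
    intro p hp hpJ
    have h1 := hmax p hp hpJ
    unfold Ind at h1
    push Not at h1
    obtain ⟨d, ⟨i, hi, hdi⟩, he⟩ := h1
    refine ⟨d, ?_, he⟩
    intro hdp
    have hiJ : i ∈ J := by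
      rcases mem_insert.1 hi with h | h
      · rw [h] at hdi
        exact absurd hdp hdi
      · exact h
    apply hJ d ⟨i, hiJ, hdi⟩
    unfold PP at he ⊢
    rw [prod_insert hpJ, prod_insert hpJ, hdp] at he
    simpa using he
  -- `m` primes outside `J`
  have hinf : ({p : ℕ | p.Prime} \ (J : Set ℕ)).Infinite :=
    Nat.infinite_setOfPred_prime.sdiff J.finite_toSet
  obtain ⟨T, hT1, hT2⟩ := hinf.exists_subset_card_eq m
  set f := T.orderEmbOfFin hT2 with hf
  have hfT : ∀ i, f i ∈ T := fun i => Finset.orderEmbOfFin_mem T hT2 i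
  have hfp : ∀ i, (f i).Prime := fun i => (hT1 (hfT i)).1
  have hfJ : ∀ i, f i ∉ J := fun i h => (hT1 (hfT i)).2 (by exact_mod_cast h)
  choose d hd0 hd using fun i => hrel (f i) (hfp i) (hfJ i)
  have hIp : ∀ i, ∀ x ∈ insert (f i) J, x.Prime := by
    intro i x hx
    rcases mem_insert.1 hx with rfl | h
    · exact hfp i
    · exact hJp x h
  have hI1 : ∀ i, ∀ x ∈ insert (f i) J, 1 ≤ x := fun i x hx => (hIp i x hx).one_lt.le
  set α : Fin m → ℕ := fun i => ∏ x ∈ insert (f i) J, x ^ (d i x).toNat with hα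
  set β : Fin m → ℕ := fun i => ∏ x ∈ insert (f i) J, x ^ (-d i x).toNat with hβ
  have hα1 : ∀ i, 1 ≤ α i := fun i =>
    Finset.one_le_prod' fun x hx => Nat.one_le_pow _ _ (hI1 i x hx)
  have hβ1 : ∀ i, 1 ≤ β i := fun i =>
    Finset.one_le_prod' fun x hx => Nat.one_le_pow _ _ (hI1 i x hx)
  -- valuations
  have hval : ∀ (i j : Fin m) (e : ℕ → ℕ),
      (∏ x ∈ insert (f i) J, x ^ e x).factorization (f j) = if i = j then e (f j) else 0 := by
    intro i j e
    rw [Nat.factorization_prod_apply fun x hx => (pow_pos (hI1 i x hx) _).ne']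
    have h1 : ∀ x ∈ insert (f i) J, (x ^ e x).factorization (f j) =
        if x = f j then e x else 0 := by
      intro x hx
      rw [Nat.factorization_pow, (hIp i x hx).factorization]
      simp only [Finsupp.smul_apply, Finsupp.single_apply, smul_eq_mul]
      split_ifs <;> simp
    rw [sum_congr rfl h1, sum_ite_eq']
    by_cases hij : i = j
    · subst hij
      simp
    · have h2 : f j ∉ insert (f i) J := by
        rw [mem_insert, not_or]
        exact ⟨fun h => hij (f.injective h).symm, hfJ j⟩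
      rw [if_neg h2, if_neg hij]
  have hIαβ : Ind univ α β := by
    rintro c ⟨j, -, hj⟩ he
    have hv : ∀ (u v : Fin m → ℕ) (su sv : Fin m → ℕ → ℕ),
        (∀ i, u i = ∏ x ∈ insert (f i) J, x ^ su i x) →
        (∀ i, v i = ∏ x ∈ insert (f i) J, x ^ sv i x) →
        (∀ i, 1 ≤ u i) → (∀ i, 1 ≤ v i) →
        (PP univ u v c).factorization (f j) =
          (c j).toNat * su j (f j) + (-c j).toNat * sv j (f j) := by
      intro u v su sv hu hv hu1 hv1
      unfold PP
      rw [Nat.factorization_prod_apply fun i _ =>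
        (Nat.mul_pos (pow_pos (hu1 i) _) (pow_pos (hv1 i) _)).ne']
      have h1 : ∀ i ∈ (univ : Finset (Fin m)),
          (u i ^ (c i).toNat * v i ^ (-c i).toNat).factorization (f j) =
          if i = j then (c i).toNat * su i (f j) + (-c i).toNat * sv i (f j) else 0 := by
        intro i _
        rw [Nat.factorization_mul (pow_pos (hu1 i) _).ne' (pow_pos (hv1 i) _).ne',
          Nat.factorization_pow, Nat.factorization_pow]
        simp only [Finsupp.add_apply, Finsupp.smul_apply, smul_eq_mul]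
        rw [hu i, hv i, hval i j, hval i j]
        split_ifs <;> simp
      rw [sum_congr rfl h1, sum_ite_eq']
      simp
    have h1 := hv α β (fun i x => (d i x).toNat) (fun i x => (-d i x).toNat) (fun _ => rfl)
      (fun _ => rfl) hα1 hβ1
    have h2 := hv β α (fun i x => (-d i x).toNat) (fun i x => (d i x).toNat) (fun _ => rfl)
      (fun _ => rfl) hβ1 hα1
    rw [he, h2] at h1
    have h3 := hd0 j
    rcases lt_or_gt_of_ne hj with g1 | g1 <;> rcases lt_or_gt_of_ne h3 with g2 | g2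
    · have e1 : (c j).toNat = 0 := by omega
      have e2 : (d j (f j)).toNat = 0 := by omega
      simp only [e1, e2, zero_mul, mul_zero, zero_add, add_zero] at h1
      have e3 : 0 < (-c j).toNat := by omega
      have e4 : 0 < (-d j (f j)).toNat := by omega
      have := Nat.mul_pos e3 e4
      omega
    · have e1 : (c j).toNat = 0 := by omega
      have e2 : (-d j (f j)).toNat = 0 := by omega
      simp only [e1, e2, zero_mul, mul_zero, zero_add, add_zero] at h1
      have e3 : 0 < (-c j).toNat := by omega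
      have e4 : 0 < (d j (f j)).toNat := by omega
      have := Nat.mul_pos e3 e4
      omega
    · have e1 : (-c j).toNat = 0 := by omega
      have e2 : (d j (f j)).toNat = 0 := by omega
      simp only [e1, e2, zero_mul, mul_zero, zero_add, add_zero] at h1
      have e3 : 0 < (c j).toNat := by omega
      have e4 : 0 < (-d j (f j)).toNat := by omega
      have := Nat.mul_pos e3 e4
      omega
    · have e1 : (-c j).toNat = 0 := by omega
      have e2 : (-d j (f j)).toNat = 0 := by omega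
      simp only [e1, e2, zero_mul, mul_zero, zero_add, add_zero] at h1
      have e3 : 0 < (c j).toNat := by omega
      have e4 : 0 < (d j (f j)).toNat := by omega
      have := Nat.mul_pos e3 e4
      omega
  have hnu1 : nu F a b 1 = 1 := by simp [nu, hF1]
  have hde1 : de a 1 = 1 := by simp [de]
  have hker : ∀ i, nu F a b (α i) * de a (β i) = nu F a b (β i) * de a (α i) := by
    intro i
    have h1 := hd i
    unfold PP at h1
    rw [prod_mul_distrib, prod_mul_distrib] at h1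
    have e1 := prod_pow_map (nu F a b) hnu1 (fun m n hm hn => nu_mul hc hm hn)
      (insert (f i) J) (hI1 i)
    have e2 := prod_pow_map (de a) hde1 (fun m n _ _ => de_mul) (insert (f i) J) (hI1 i)
    rw [hα, hβ]
    simp only
    rw [e1, e1, e2, e2, h1]
    ring
  refine ⟨α, β, fun _ => nu F a b q, fun _ => de a q, fun i => hα1 i, fun i => hβ1 i,
    fun _ => nu_pos hq.one_lt.le (hF0 _ hq.one_lt.le), fun _ => de_pos hq.one_lt.le, hIαβ,
    ind_one hqw (nu_pos hq.one_lt.le (hF0 _ hq.one_lt.le)) (de_pos hq.one_lt.le), insert q (J ∪ univ.image f), fun l hl hlZ => ?_⟩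
  obtain ⟨h, hh⟩ := w_pow hF1 hc hl a b
  rw [mem_insert, mem_union, not_or, not_or] at hlZ
  obtain ⟨z1, z2, z3⟩ := hlZ
  have hlq : ¬ l ∣ q := fun h => z1 ((Nat.prime_dvd_prime_iff_eq hl.1 hq).1 h)
  have hlI : ∀ i, ∀ e : ℕ → ℕ, ¬ l ∣ ∏ x ∈ insert (f i) J, x ^ e x := by
    intro i e h
    obtain ⟨x, hx, hlx⟩ := (hl.1.prime.dvd_finsetProd_iff _).1 h
    have h1 := (Nat.prime_dvd_prime_iff_eq hl.1 (hIp i x hx)).1 (hl.1.dvd_of_dvd_pow hlx)
    rcases mem_insert.1 hx with h2 | h2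
    · exact z3 (by
        rw [h1, h2]
        exact mem_image_of_mem _ (mem_univ i))
    · exact z2 (by rw [h1]; exact h2)
  exact ⟨fun i => ⟨hlI i _, hlI i _⟩,
    fun _ => ⟨(hh _ hq.one_lt.le hlq).1, (hh _ hq.one_lt.le hlq).2.1⟩, h,
    fun i => ker_pow hl.1 hh (hα1 i) (hβ1 i) (hlI i _) (hlI i _) (hker i),
    fun _ => ⟨un l q, ((hh _ hq.one_lt.le hlq).2.2).symm⟩⟩

/-- if all the `w p` are `1` -/
lemma abs_monomial (hF1 : F 1 = 1) (hc : ∀ m n : ℕ, 1 ≤ m → 1 ≤ n → F (m * n) = F m * F n)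
    (a : ℤ) (b : ℕ) (hb : 0 < b) (h : ∀ p : ℕ, p.Prime → nu F a b p = de a p) :
    ∃ k : ℕ, ∀ n : ℕ, 1 ≤ n → (F n).natAbs = n ^ k := by
  have h1 : ∀ p : ℕ, p.Prime → ∃ k : ℕ, (F p).natAbs = p ^ k ∧
      k * (2 * b) + (-(2 * a)).toNat = (2 * a).toNat := by
    intro p hp
    have h2 := h p hp
    unfold nu de at h2
    have h3 : (F p).natAbs ∣ p ^ (2 * a).toNat := by
      rw [← h2]
      exact dvd_mul_of_dvd_left (dvd_pow_self _ (by omega)) _
    obtain ⟨k, -, hk⟩ := (Nat.dvd_prime_pow hp).1 h3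
    refine ⟨k, hk, ?_⟩
    rw [hk, ← pow_mul, ← pow_add] at h2
    exact Nat.pow_right_injective hp.two_le h2
  obtain ⟨k, hk1, hk2⟩ := h1 2 Nat.prime_two
  refine ⟨k, fun n hn => ?_⟩
  have h3 : ∀ p : ℕ, p.Prime → (F p).natAbs = p ^ k := by
    intro p hp
    obtain ⟨k', hk1', hk2'⟩ := h1 p hp
    have : k' * (2 * b) = k * (2 * b) := by omega
    have : k' = k := Nat.eq_of_mul_eq_mul_right (by omega) this
    rw [hk1', this]
  induction n using Nat.recOnMul with
  | zero => omega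
  | one => simp [hF1]
  | prime p hp => exact h3 p hp
  | mul x y hx hy =>
    have hx1 : 1 ≤ x := Nat.pos_of_ne_zero (by rintro rfl; simp at hn)
    have hy1 : 1 ≤ y := Nat.pos_of_ne_zero (by rintro rfl; simp at hn)
    rw [hc x y hx1 hy1, Int.natAbs_mul, hx hx1, hy hy1, mul_pow]

/-- the signs -/
lemma sign (hF1 : F 1 = 1) (hS : (SF F).Infinite) (k : ℕ)
    (hk : ∀ n : ℕ, 1 ≤ n → (F n).natAbs = n ^ k) : ∀ n : ℕ, 1 ≤ n → F n = (n : ℤ) ^ k := by
  intro n hn
  have habs : ∀ m : ℕ, 1 ≤ m → F m = (m : ℤ) ^ k ∨ F m = -(m : ℤ) ^ k := by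
    intro m hm
    have h1 := hk m hm
    rcases Int.natAbs_eq (F m) with h | h
    · left
      rw [h, h1]
      push_cast
      rfl
    · right
      rw [h, h1]
      push_cast
      rfl
  obtain ⟨l, hl, hbig⟩ := hS.exists_gt (n + 2)
  obtain ⟨l', hl', hbig'⟩ := hS.exists_gt l
  have hne : l ≠ l' := by omega
  have hcop : Nat.Coprime l l' := (Nat.coprime_primes hl.1 hl'.1).2 hne
  obtain ⟨m0, hm1, hm2⟩ := Nat.chineseRemainder hcop n 1
  set m := m0 + l * l' with hm
  have hmpos : 1 ≤ m := by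
    have : 0 < l * l' := Nat.mul_pos hl.1.pos hl'.1.pos
    omega
  have c1 : m ≡ n [MOD l] := by
    have : m0 + l * l' ≡ m0 [MOD l] := by simp [Nat.ModEq]
    exact this.trans hm1
  have c2 : m ≡ 1 [MOD l'] := by
    have : m0 + l * l' ≡ m0 [MOD l'] := by simp [Nat.ModEq]
    exact this.trans hm2
  -- `F m = m ^ k`
  have hrule : ∀ l : ℕ, l ∈ SF F → 2 < l → ∀ x y : ℕ, 1 ≤ x → 1 ≤ y → ¬ l ∣ x → x ≡ y [MOD l] →
      F x = (x : ℤ) ^ k → F y = (y : ℤ) ^ k := by
    intro l hl hl2 x y hx hy hlx hxy hFx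
    rcases habs y hy with h | h
    · exact h
    · exfalso
      have h1 := per hl hx hy hxy
      rw [hFx, h] at h1
      have h2 : ((x : ℤ)) ≡ y [ZMOD (l : ℤ)] := by exact_mod_cast (Int.natCast_modEq_iff.2 hxy)
      have h3 : (x : ℤ) ^ k ≡ (y : ℤ) ^ k [ZMOD (l : ℤ)] := h2.pow k
      have h4 : (l : ℤ) ∣ -(y : ℤ) ^ k - (x : ℤ) ^ k := Int.modEq_iff_dvd.1 h1
      have h5 : (l : ℤ) ∣ (y : ℤ) ^ k - (x : ℤ) ^ k := Int.modEq_iff_dvd.1 h3
      have h6 : (l : ℤ) ∣ 2 * (x : ℤ) ^ k := by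
        have := dvd_add h4 h5
        have e : -(y : ℤ) ^ k - (x : ℤ) ^ k + ((y : ℤ) ^ k - (x : ℤ) ^ k) = -(2 * (x : ℤ) ^ k) := by
          ring
        rw [e] at this
        exact (dvd_neg).1 this
      have h7 : l ∣ 2 * x ^ k := by exact_mod_cast h6
      rcases (hl.1.dvd_mul).1 h7 with h8 | h8
      · have := Nat.le_of_dvd (by norm_num) h8
        omega
      · exact hlx (hl.1.dvd_of_dvd_pow h8)
  have hm' : F m = (m : ℤ) ^ k := by
    apply hrule l' hl' (by omega) 1 m le_rfl hmpos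
    · intro h
      have := Nat.le_of_dvd (by norm_num) h
      omega
    · exact c2.symm
    · simp [hF1]
  apply hrule l hl (by omega) m n hmpos hn ?_ c1 hm'
  intro h
  have h1 : l ∣ n := (Nat.modEq_zero_iff_dvd).1 (c1.symm.trans ((Nat.modEq_zero_iff_dvd).2 h))
  have := Nat.le_of_dvd hn h1
  omega

end Pool.Agent.T2h24c
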