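import Pool.Agent.T2h24c.Gen

set_option autoImplicit false

open Finset

namespace Pool.Agent.T2h24c

open Gen

variable {F : ℕ → ℤ}

lemma w_sq (hF0 : ∀ n : ℕ, 1 ≤ n → F n ≠ 0) (c : Polynomial ℤ) {n : ℕ} (hn : 1 ≤ n) :
    w F c n ^ 2 * (num F (c.natDegree + 1) (fun i => -c.coeff i) n : ℚ) =
      (num F (c.natDegree + 1) (fun i => c.coeff i) n : ℚ) := by
  unfold w num
  push_cast
  rw [← prod_pow, ← prod_mul_distrib]
  refine prod_congr rfl fun i _ => ?_
  have h0 : ((it F i n : ℕ) : ℚ) ≠ 0 := by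
    have := it_pos hF0 i hn
    exact_mod_cast (by omega : it F i n ≠ 0)
  rw [← zpow_natCast, ← zpow_natCast, ← zpow_natCast, ← zpow_mul, ← zpow_add₀ h0]
  congr 1
  push_cast
  omega

lemma w_pos (hF0 : ∀ n : ℕ, 1 ≤ n → F n ≠ 0) (c : Polynomial ℤ) {n : ℕ} (hn : 1 ≤ n) :
    0 < w F c n := by
  unfold w
  refine prod_pos fun i _ => zpow_pos ?_ _
  have := it_pos hF0 i hn
  exact_mod_cast (by omega : 0 < it F i n)

lemma num_pos (hF0 : ∀ n : ℕ, 1 ≤ n → F n ≠ 0) (k : ℕ) (c : ℕ → ℤ) {n : ℕ} (hn : 1 ≤ n) :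
    0 < num F k c n :=
  prod_pos fun i _ => Nat.pow_pos (it_pos hF0 i hn)

lemma num_eq (hF0 : ∀ n : ℕ, 1 ≤ n → F n ≠ 0) (c : Polynomial ℤ) {α β : ℕ} (hα : 1 ≤ α)
    (hβ : 1 ≤ β) (h : w F c α = w F c β) :
    num F (c.natDegree + 1) (fun i => c.coeff i) α *
        num F (c.natDegree + 1) (fun i => -c.coeff i) β =
      num F (c.natDegree + 1) (fun i => c.coeff i) β *
        num F (c.natDegree + 1) (fun i => -c.coeff i) α := by
  have h1 := w_sq hF0 c hα
  have h2 := w_sq hF0 c hβ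
  rw [← h] at h2
  have h3 : (num F (c.natDegree + 1) (fun i => c.coeff i) α : ℚ) *
        num F (c.natDegree + 1) (fun i => -c.coeff i) β =
      num F (c.natDegree + 1) (fun i => c.coeff i) β *
        num F (c.natDegree + 1) (fun i => -c.coeff i) α := by
    rw [← h1, ← h2]
    ring
  exact_mod_cast h3

lemma num_ne (hF0 : ∀ n : ℕ, 1 ≤ n → F n ≠ 0) (c : Polynomial ℤ) {n : ℕ} (hn : 1 ≤ n)
    (h : w F c n ≠ 1) : num F (c.natDegree + 1) (fun i => c.coeff i) n ≠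
      num F (c.natDegree + 1) (fun i => -c.coeff i) n := by
  intro he
  apply h
  have h1 := w_sq hF0 c hn
  rw [he] at h1
  have h2 : (num F (c.natDegree + 1) (fun i => -c.coeff i) n : ℚ) ≠ 0 := by
    have := num_pos hF0 (c.natDegree + 1) (fun i => -c.coeff i) hn
    exact_mod_cast (by omega : num F (c.natDegree + 1) (fun i => -c.coeff i) n ≠ 0)
  have h3 : w F c n ^ 2 = 1 := mul_right_cancel₀ h2 (by rw [h1, one_mul])
  exact (pow_eq_one_iff_of_nonneg (w_pos hF0 c hn).le (by norm_num)).1 h3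

/-- as `wp`, for a given exponent `g` -/
lemma num_pow_g (hF1 : F 1 = 1) (hc : ∀ m n : ℕ, 1 ≤ m → 1 ≤ n → F (m * n) = F m * F n)
    (hF0 : ∀ n : ℕ, 1 ≤ n → F n ≠ 0) {l : ℕ} (hl : l ∈ SF F) {g : ℤ}
    (hg : ∀ n : ℕ, 1 ≤ n → ¬ l ∣ n →
      ((F n : ℤ) : ZMod l) = ((un l n ^ g : (ZMod l)ˣ) : ZMod l)) (c : Polynomial ℤ) :
    ∀ n : ℕ, 1 ≤ n → ¬ l ∣ n →
      ¬ l ∣ num F (c.natDegree + 1) (fun i => c.coeff i) n ∧
      ¬ l ∣ num F (c.natDegree + 1) (fun i => -c.coeff i) n ∧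
      un l (num F (c.natDegree + 1) (fun i => c.coeff i) n) /
        un l (num F (c.natDegree + 1) (fun i => -c.coeff i) n) = un l n ^ (2 * c.eval g) := by
  intro n hn hln
  have hp := hl.1
  set k := c.natDegree + 1 with hk
  have hnd : ∀ c : ℕ → ℤ, ¬ l ∣ num F k c n := fun c h => by
    obtain ⟨i, _, hi⟩ := (hp.prime.dvd_finsetProd_iff _).1 h
    exact it_ndvd hF1 hc hF0 hl i hn hln (hp.dvd_of_dvd_pow hi)
  refine ⟨hnd _, hnd _, ?_⟩
  have hun : ∀ c : ℕ → ℤ, un l (num F k c n) = ∏ i ∈ range k, un l (it F i n) ^ (2 * c i).toNat := by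
    intro c
    rw [Units.ext_iff, un_val hp (hnd c)]
    unfold num
    push_cast
    exact prod_congr rfl fun i _ => by rw [un_val hp (it_ndvd hF1 hc hF0 hl i hn hln)]
  rw [hun, hun, ← prod_div_distrib]
  have h1 : ∀ i ∈ range k, un l (it F i n) ^ (2 * c.coeff i).toNat /
      un l (it F i n) ^ (2 * -c.coeff i).toNat = un l n ^ (2 * (c.coeff i * g ^ i)) := by
    intro i _
    rw [← zpow_natCast, ← zpow_natCast, div_eq_mul_inv, ← zpow_sub]
    have h2 : ((2 * c.coeff i).toNat : ℤ) - ((2 * -c.coeff i).toNat : ℤ) =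
        ((2 : ℕ) : ℤ) * c.coeff i := by
      push_cast
      omega
    rw [h2, zpow_mul, zpow_natCast, it_pow hF1 hc hF0 hl hg i hn hln, ← zpow_natCast,
      ← zpow_mul, ← zpow_mul]
    congr 1
    push_cast
    ring
  rw [prod_congr rfl h1]
  have h3 : ∀ s : Finset ℕ, ∏ i ∈ s, un l n ^ (2 * (c.coeff i * g ^ i)) =
      un l n ^ (2 * ∑ i ∈ s, c.coeff i * g ^ i) := by
    intro s
    induction s using Finset.induction_on with
    | empty => simp
    | insert j s hj ih => rw [prod_insert hj, sum_insert hj, ih, ← zpow_add, ← mul_add]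
  rw [h3, Polynomial.eval_eq_sum_range]

/-- several coprime polynomials -/
lemma several_poly (hF1 : F 1 = 1) (hc : ∀ m n : ℕ, 1 ≤ m → 1 ≤ n → F (m * n) = F m * F n)
    (hF0 : ∀ n : ℕ, 1 ≤ n → F n ≠ 0)
    {r : ℕ} (hr : 1 ≤ r) (α β : Fin r → ℕ) (hα : ∀ i, 0 < α i) (hβ : ∀ i, 0 < β i)
    (hαβ : ∀ i, α i ≠ β i) (c : Fin r → Polynomial ℤ)
    (he : ∀ i, w F (c i) (α i) = w F (c i) (β i))
    (hne : ∀ i j, i ≠ j → Copr (c i) (c j)) :
    ∃ C : ℝ, ∀ X : ℕ, 1 ≤ X →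
      (({l ∈ SF F | l ≤ X}).ncard : ℝ) ≤ C * (X : ℝ) ^ (2 / (r : ℝ)) := by
  classical
  have hne' : ∀ i j, ∃ R : ℤ, i ≠ j → R ≠ 0 ∧ ∀ g : ℤ, ∀ z : ℤ, z ∣ 2 * (c i).eval g →
      z ∣ 2 * (c j).eval g → z ∣ R := by
    intro i j
    by_cases hij : i = j
    · exact ⟨0, fun h => absurd hij h⟩
    · obtain ⟨A, B, R, hR, hAB⟩ := hne i j hij
      refine ⟨2 * R, fun _ => ⟨by omega, fun g z h1 h2 => ?_⟩⟩
      have h3 := congrArg (Polynomial.eval g) hAB
      rw [Polynomial.eval_add, Polynomial.eval_mul, Polynomial.eval_mul, Polynomial.eval_C] at h3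
      rw [← h3]
      have h4 := dvd_add (dvd_mul_of_dvd_right h1 (A.eval g)) (dvd_mul_of_dvd_right h2 (B.eval g))
      have e : A.eval g * (2 * (c i).eval g) + B.eval g * (2 * (c j).eval g) =
          2 * (A.eval g * (c i).eval g + B.eval g * (c j).eval g) := by ring
      rwa [e] at h4
  choose R hR using hne'
  set D : ℕ := 1 + ∑ i, ∑ j, (R i j).natAbs with hD
  set K : ℕ := D ^ (r * r) with hK
  have hD1 : 1 ≤ D := by omega
  have hK1 : 1 ≤ K := Nat.one_le_pow _ _ hD1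
  set Z : Finset ℕ := univ.biUnion fun i => (α i).primeFactors ∪ (β i).primeFactors with hZ
  set M : ℕ := ∑ i, α i * β i with hM
  refine ⟨Z.card + r * (3 * M) * (K : ℝ) ^ (2 / (r : ℝ)), fun X hX => ?_⟩
  have hX1 : (1 : ℝ) ≤ X := by exact_mod_cast hX
  have hr0 : (0 : ℝ) < r := by exact_mod_cast hr
  have hK1' : (1 : ℝ) ≤ K := by exact_mod_cast hK1
  set Y : ℝ := ((K : ℝ) * X) ^ (1 / (r : ℝ)) with hY
  have hKX : (1 : ℝ) ≤ (K : ℝ) * X := by nlinarith
  have hY1 : 1 ≤ Y := Real.one_le_rpow hKX (by positivity)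
  set E := ⌊Y⌋₊ with hE
  have hE1 : 1 ≤ E := (Nat.one_le_floor_iff _).2 hY1
  have hEY : (E : ℝ) ≤ Y := Nat.floor_le (by positivity)
  have hEK : K * X < (E + 1) ^ r := by
    have h1 : Y < E + 1 := Nat.lt_floor_add_one Y
    have h2 : Y ^ r = (K : ℝ) * X := by
      rw [hY, ← Real.rpow_natCast, ← Real.rpow_mul (by positivity)]
      rw [one_div, inv_mul_cancel₀ hr0.ne', Real.rpow_one]
    have h3 : Y ^ r < ((E : ℝ) + 1) ^ r := pow_lt_pow_left₀ h1 (by positivity) (by omega)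
    rw [h2] at h3
    exact_mod_cast h3
  have hsub : {l ∈ SF F | l ≤ X} ⊆ (Z : Set ℕ) ∪
      ⋃ i : Fin r, Small (fun _ : Fin 1 => α i) (fun _ : Fin 1 => β i) E := by
    rintro l ⟨hl, hlX⟩
    by_contra hcon
    simp only [Set.mem_union, Set.mem_iUnion, not_or, not_exists] at hcon
    obtain ⟨hlZ, hs⟩ := hcon
    have hlZ' : ∀ i, ¬ l ∣ α i ∧ ¬ l ∣ β i := by
      intro i
      constructor
      · intro h
        apply hlZ
        rw [hZ, Finset.mem_coe, mem_biUnion]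
        exact ⟨i, mem_univ i, mem_union_left _ (Nat.mem_primeFactors.2 ⟨hl.1, h, (hα i).ne'⟩)⟩
      · intro h
        apply hlZ
        rw [hZ, Finset.mem_coe, mem_biUnion]
        exact ⟨i, mem_univ i, mem_union_right _ (Nat.mem_primeFactors.2 ⟨hl.1, h, (hβ i).ne'⟩)⟩
    have : Fact l.Prime := ⟨hl.1⟩
    obtain ⟨g, hg⟩ := power hF1 hc hl
    set x : Fin r → (ZMod l)ˣ := fun i => un l (α i) / un l (β i) with hx
    have hx1 : ∀ i, x i ^ (2 * (c i).eval g) = 1 := fun i =>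
      Gen.ker_pow hl.1 (num_pow_g hF1 hc hF0 hl hg (c i)) (hα i) (hβ i) (hlZ' i).1 (hlZ' i).2
        (num_eq hF0 (c i) (hα i) (hβ i) (he i))
    have ho0 : ∀ i, 0 < orderOf (x i) := fun i => orderOf_pos _
    have hgcd : ∀ i j, i ≠ j → Nat.gcd (orderOf (x i)) (orderOf (x j)) ≤ D := by
      intro i j hij
      have h1 : (orderOf (x i) : ℤ) ∣ 2 * (c i).eval g := orderOf_dvd_iff_zpow_eq_one.2 (hx1 i)
      have h2 : (orderOf (x j) : ℤ) ∣ 2 * (c j).eval g := orderOf_dvd_iff_zpow_eq_one.2 (hx1 j)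
      have h3 : ((Nat.gcd (orderOf (x i)) (orderOf (x j)) : ℕ) : ℤ) ∣ R i j :=
        (hR i j hij).2 g _
          ((Int.natCast_dvd_natCast.2 (Nat.gcd_dvd_left (orderOf (x i)) (orderOf (x j)))).trans h1)
          ((Int.natCast_dvd_natCast.2 (Nat.gcd_dvd_right (orderOf (x i)) (orderOf (x j)))).trans h2)
      have h5 : Nat.gcd (orderOf (x i)) (orderOf (x j)) ≤ (R i j).natAbs :=
        Nat.le_of_dvd (Int.natAbs_pos.2 (hR i j hij).1) (Int.natCast_dvd.1 h3)
      have h6 : (R i j).natAbs ≤ ∑ j, (R i j).natAbs :=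
        Finset.single_le_sum (f := fun j => (R i j).natAbs) (fun _ _ => Nat.zero_le _) (mem_univ j)
      have h7 : ∑ j, (R i j).natAbs ≤ ∑ i, ∑ j, (R i j).natAbs :=
        Finset.single_le_sum (f := fun i => ∑ j, (R i j).natAbs)
          (fun _ _ => Nat.zero_le _) (mem_univ i)
      omega
    have hbig : ∀ i, E + 1 ≤ orderOf (x i) := by
      intro i
      by_contra hlt
      apply hs i
      refine small_of_card _ _ E hl.1 (fun _ => hlZ' i) (Subgroup.zpowers (x i))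
        (fun _ => Subgroup.mem_zpowers _) ?_
      rw [Nat.card_zpowers, pow_one]
      omega
    have h1 := prod_le_lcm (fun i => orderOf (x i)) D hD1 univ (fun i _ j _ h => hgcd i j h)
      (fun i _ => ho0 i)
    have h2 : (univ : Finset (Fin r)).lcm (fun i => orderOf (x i)) ≤ l - 1 := by
      have h3 : (univ : Finset (Fin r)).lcm (fun i => orderOf (x i)) ∣ l - 1 := by
        refine Finset.lcm_dvd fun i _ => ?_
        have := orderOf_dvd_card (x := x i)
        rwa [ZMod.card_units_eq_totient, Nat.totient_prime hl.1] at this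
      exact Nat.le_of_dvd (by have := hl.1.one_lt; omega) h3
    have h3 : (E + 1) ^ r ≤ ∏ i, orderOf (x i) := by
      have := Finset.pow_card_le_prod (univ : Finset (Fin r)) (fun i => orderOf (x i)) (E + 1)
        (fun i _ => hbig i)
      simpa using this
    rw [card_univ, Fintype.card_fin, ← hK] at h1
    have h4 : (E + 1) ^ r ≤ K * X := by
      calc (E + 1) ^ r ≤ _ := h3
        _ ≤ _ := h1
        _ ≤ (l - 1) * K := Nat.mul_le_mul_right _ h2
        _ ≤ X * K := Nat.mul_le_mul_right _ (by omega)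
        _ = K * X := mul_comm _ _
    omega
  have hfin1 : ∀ i : Fin r, (Small (fun _ : Fin 1 => α i) (fun _ : Fin 1 => β i) E).Finite ∧
      (Small (fun _ : Fin 1 => α i) (fun _ : Fin 1 => β i) E).ncard ≤
        (2 * E + 1) ^ 1 * ((∏ _j : Fin 1, α i * β i) * E) := fun i =>
    small_card _ _ (fun _ => hα i) (fun _ => hβ i) (ind_one (hαβ i) (hα i) (hβ i)) E
  have hfin : ((Z : Set ℕ) ∪
      ⋃ i : Fin r, Small (fun _ : Fin 1 => α i) (fun _ : Fin 1 => β i) E).Finite :=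
    Z.finite_toSet.union (Set.finite_iUnion fun i => (hfin1 i).1)
  have c1 : ({l ∈ SF F | l ≤ X}).ncard ≤ Z.card + r * (3 * M * E ^ 2) := by
    calc _ ≤ _ := Set.ncard_le_ncard hsub hfin
      _ ≤ (Z : Set ℕ).ncard + (⋃ i : Fin r,
          Small (fun _ : Fin 1 => α i) (fun _ : Fin 1 => β i) E).ncard := Set.ncard_union_le _ _
      _ ≤ Z.card + ∑ i : Fin r,
          (Small (fun _ : Fin 1 => α i) (fun _ : Fin 1 => β i) E).ncard := by
        rw [Set.ncard_coe_finset]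
        have := Set.ncard_iUnion_le_of_fintype
          (fun i : Fin r => Small (fun _ : Fin 1 => α i) (fun _ : Fin 1 => β i) E)
        omega
      _ ≤ Z.card + ∑ _i : Fin r, (3 * M * E ^ 2) := by
        gcongr with i hi
        refine (hfin1 i).2.trans ?_
        have hMi : α i * β i ≤ M :=
          Finset.single_le_sum (f := fun i => α i * β i) (fun _ _ => Nat.zero_le _) (mem_univ i)
        simp only [pow_one, univ_unique, prod_const, card_singleton]
        calc (2 * E + 1) * (α i * β i * E) ≤ (3 * E) * (M * E) := by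
              apply Nat.mul_le_mul (by omega)
              exact Nat.mul_le_mul_right _ hMi
          _ = 3 * M * E ^ 2 := by ring
      _ = Z.card + r * (3 * M * E ^ 2) := by simp
  have c2 : (({l ∈ SF F | l ≤ X}).ncard : ℝ) ≤ Z.card + r * (3 * M * (E : ℝ) ^ 2) := by
    exact_mod_cast c1
  have c3 : (E : ℝ) ^ 2 ≤ (K : ℝ) ^ (2 / (r : ℝ)) * (X : ℝ) ^ (2 / (r : ℝ)) := by
    calc (E : ℝ) ^ 2 ≤ Y ^ 2 := pow_le_pow_left₀ (by positivity) hEY 2
      _ = ((K : ℝ) * X) ^ (2 / (r : ℝ)) := by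
        rw [hY, ← Real.rpow_natCast, ← Real.rpow_mul (by positivity)]
        congr 1
        push_cast
        ring
      _ = _ := Real.mul_rpow (by positivity) (by positivity)
  have c4 : 1 ≤ (X : ℝ) ^ (2 / (r : ℝ)) := Real.one_le_rpow hX1 (by positivity)
  calc (({l ∈ SF F | l ≤ X}).ncard : ℝ) ≤ Z.card + r * (3 * M * (E : ℝ) ^ 2) := c2
    _ ≤ Z.card * (X : ℝ) ^ (2 / (r : ℝ)) +
        r * (3 * M * ((K : ℝ) ^ (2 / (r : ℝ)) * (X : ℝ) ^ (2 / (r : ℝ)))) := by
      have d1 := mul_le_mul_of_nonneg_left c4 (Nat.cast_nonneg (α := ℝ) Z.card)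
      have d2 : (r : ℝ) * (3 * M * (E : ℝ) ^ 2) ≤
          r * (3 * M * ((K : ℝ) ^ (2 / (r : ℝ)) * (X : ℝ) ^ (2 / (r : ℝ)))) := by gcongr
      linarith
    _ = _ := by ring

end Pool.Agent.T2h24c
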