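import Pool.Agent.T2h24c.Main

set_option autoImplicit false

open Finset

namespace Pool.Agent.T2h24c

variable {F : ℕ → ℤ}

/-- as `w_pow`, for a given exponent `g` -/
lemma w_pow_g (hF1 : F 1 = 1) (hc : ∀ m n : ℕ, 1 ≤ m → 1 ≤ n → F (m * n) = F m * F n)
    {l : ℕ} (hl : l ∈ SF F) {g : ℤ} (hg : ∀ n : ℕ, 1 ≤ n → ¬ l ∣ n →
      ((F n : ℤ) : ZMod l) = ((un l n ^ g : (ZMod l)ˣ) : ZMod l)) (a : ℤ) (b : ℕ) :
    ∀ n : ℕ, 1 ≤ n → ¬ l ∣ n →
      ¬ l ∣ nu F a b n ∧ ¬ l ∣ de a n ∧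
        un l (nu F a b n) / un l (de a n) = un l n ^ (2 * (b * g - a)) := by
  intro n hn hln
  have hp := hl.1
  have h1 : ¬ l ∣ (F n).natAbs := fun h => ne_zero_mod hF1 hc hl hn hln (Int.natCast_dvd.2 h)
  have h2 : ¬ l ∣ nu F a b n := by
    intro h
    rcases (hp.dvd_mul).1 h with h | h
    · exact h1 (hp.dvd_of_dvd_pow h)
    · exact hln (hp.dvd_of_dvd_pow h)
  have h3 : ¬ l ∣ de a n := fun h => hln (hp.dvd_of_dvd_pow h)
  refine ⟨h2, h3, ?_⟩
  have e1 : un l (nu F a b n) = (un l n ^ g) ^ (2 * b) * un l n ^ (-(2 * a)).toNat := by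
    rw [Units.ext_iff, un_val hp h2]
    unfold nu
    push_cast
    rw [un_val hp hln]
    congr 1
    have h4 := hg n hn hln
    have h5 : (((F n).natAbs : ℕ) : ZMod l) ^ (2 * b) = ((F n : ℤ) : ZMod l) ^ (2 * b) := by
      rw [pow_mul, pow_mul]
      congr 1
      have h6 : (((F n).natAbs : ℤ)) ^ 2 = (F n) ^ 2 := Int.natAbs_sq (F n)
      have h7 := congrArg (fun z : ℤ => (z : ZMod l)) h6
      push_cast at h7
      simpa using h7
    rw [h5, h4]
  have e2 : un l (de a n) = un l n ^ (2 * a).toNat := by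
    rw [Units.ext_iff, un_val hp h3]
    unfold de
    push_cast
    rw [un_val hp hln]
  rw [e1, e2, ← zpow_natCast, ← zpow_natCast, ← zpow_natCast, ← zpow_mul, ← zpow_add,
    div_eq_mul_inv, ← zpow_sub]
  congr 1
  push_cast
  have h4 : ((-(2 * a)).toNat : ℤ) - ((2 * a).toNat : ℤ) = -(2 * a) := by omega
  linarith

lemma prod_le_lcm {ι : Type} [DecidableEq ι] (o : ι → ℕ) (D : ℕ) (hD : 1 ≤ D) (s : Finset ι)
    (h : ∀ i ∈ s, ∀ j ∈ s, i ≠ j → Nat.gcd (o i) (o j) ≤ D) (h0 : ∀ i ∈ s, 0 < o i) :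
    ∏ i ∈ s, o i ≤ s.lcm o * D ^ (s.card * s.card) := by
  induction s using Finset.induction_on with
  | empty => simp
  | insert j s hj ih =>
    have ih' := ih (fun i hi k hk => h i (mem_insert_of_mem hi) k (mem_insert_of_mem hk))
      (fun i hi => h0 i (mem_insert_of_mem hi))
    rw [prod_insert hj, Finset.lcm_insert, card_insert_of_notMem hj]
    have h1 : Nat.gcd (o j) (s.lcm o) ∣ ∏ i ∈ s, Nat.gcd (o j) (o i) := by
      have h2 : s.lcm o ∣ ∏ i ∈ s, o i := Finset.lcm_dvd fun i hi => Finset.dvd_prod_of_mem o hi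
      refine (Nat.gcd_dvd_gcd_of_dvd_right _ h2).trans ?_
      clear h2 ih ih' h h0 hj
      induction s using Finset.induction_on with
      | empty => simp
      | insert k s hk ih =>
        rw [prod_insert hk, prod_insert hk]
        exact (Nat.gcd_mul_right_dvd_mul_gcd _ _ _).trans (Nat.mul_dvd_mul_left _ ih)
    have h2 : Nat.gcd (o j) (s.lcm o) ≤ D ^ s.card := by
      refine (Nat.le_of_dvd ?_ h1).trans ?_
      · exact Finset.prod_pos fun i hi => Nat.gcd_pos_of_pos_left _ (h0 j (mem_insert_self _ _))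
      · refine (Finset.prod_le_pow_card _ _ D fun i hi => ?_)
        exact h j (mem_insert_self _ _) i (mem_insert_of_mem hi) (fun h => hj (h ▸ hi))
    have h3 : o j * s.lcm o = Nat.gcd (o j) (s.lcm o) * Nat.lcm (o j) (s.lcm o) :=
      (Nat.gcd_mul_lcm _ _).symm
    calc o j * ∏ i ∈ s, o i ≤ o j * (s.lcm o * D ^ (s.card * s.card)) :=
          Nat.mul_le_mul_left _ ih'
      _ = (Nat.gcd (o j) (s.lcm o) * Nat.lcm (o j) (s.lcm o)) * D ^ (s.card * s.card) := by
          rw [← mul_assoc, h3]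
      _ ≤ (D ^ s.card * Nat.lcm (o j) (s.lcm o)) * D ^ (s.card * s.card) := by gcongr
      _ = Nat.lcm (o j) (s.lcm o) * D ^ (s.card + s.card * s.card) := by
          rw [pow_add]; ring
      _ ≤ Nat.lcm (o j) (s.lcm o) * D ^ ((s.card + 1) * (s.card + 1)) := by
          apply Nat.mul_le_mul_left
          exact Nat.pow_le_pow_right hD (by nlinarith)

/-- several exponents -/
lemma several (hF1 : F 1 = 1) (hc : ∀ m n : ℕ, 1 ≤ m → 1 ≤ n → F (m * n) = F m * F n)
    {r : ℕ} (hr : 1 ≤ r) (α β : Fin r → ℕ) (hα : ∀ i, 0 < α i) (hβ : ∀ i, 0 < β i)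
    (hαβ : ∀ i, α i ≠ β i) (a : Fin r → ℤ) (b : Fin r → ℕ)
    (he : ∀ i, nu F (a i) (b i) (α i) * de (a i) (β i) =
      nu F (a i) (b i) (β i) * de (a i) (α i))
    (hne : ∀ i j, i ≠ j → a i * b j ≠ a j * b i) :
    ∃ C : ℝ, ∀ X : ℕ, 1 ≤ X →
      (({l ∈ SF F | l ≤ X}).ncard : ℝ) ≤ C * (X : ℝ) ^ (2 / (r : ℝ)) := by
  classical
  set D : ℕ := 1 + ∑ i, ∑ j, (2 * (a i * b j - a j * b i)).natAbs with hD
  set K : ℕ := D ^ (r * r) with hK
  have hD1 : 1 ≤ D := by omega
  have hK1 : 1 ≤ K := Nat.one_le_pow _ _ hD1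
  set Z : Finset ℕ := univ.biUnion fun i => (α i).primeFactors ∪ (β i).primeFactors with hZ
  set M : ℕ := ∑ i, α i * β i with hM
  refine ⟨Z.card + r * (3 * M) * (K : ℝ) ^ (2 / (r : ℝ)), fun X hX => ?_⟩
  have hX1 : (1 : ℝ) ≤ X := by exact_mod_cast hX
  have hr0 : (0 : ℝ) < r := by exact_mod_cast hr
  have hK1' : (1 : ℝ) ≤ K := by exact_mod_cast hK1
  set Y : ℝ := ((K : ℝ) * X) ^ (1 / (r : ℝ)) with hY
  have hKX : (1 : ℝ) ≤ (K : ℝ) * X := by nlinarith
  have hY1 : 1 ≤ Y := Real.one_le_rpow hKX (by positivity)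
  set E := ⌊Y⌋₊ with hE
  have hE1 : 1 ≤ E := (Nat.one_le_floor_iff _).2 hY1
  have hEY : (E : ℝ) ≤ Y := Nat.floor_le (by positivity)
  have hEK : K * X < (E + 1) ^ r := by
    have h1 : Y < E + 1 := Nat.lt_floor_add_one Y
    have h2 : Y ^ r = (K : ℝ) * X := by
      rw [hY, ← Real.rpow_natCast, ← Real.rpow_mul (by positivity)]
      rw [one_div, inv_mul_cancel₀ hr0.ne', Real.rpow_one]
    have h3 : Y ^ r < ((E : ℝ) + 1) ^ r := pow_lt_pow_left₀ h1 (by positivity) (by omega)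
    rw [h2] at h3
    exact_mod_cast h3
  have hsub : {l ∈ SF F | l ≤ X} ⊆ (Z : Set ℕ) ∪
      ⋃ i : Fin r, Small (fun _ : Fin 1 => α i) (fun _ : Fin 1 => β i) E := by
    rintro l ⟨hl, hlX⟩
    by_contra hcon
    simp only [Set.mem_union, Set.mem_iUnion, not_or, not_exists] at hcon
    obtain ⟨hlZ, hs⟩ := hcon
    have hlZ' : ∀ i, ¬ l ∣ α i ∧ ¬ l ∣ β i := by
      intro i
      constructor
      · intro h
        apply hlZ
        rw [hZ, Finset.mem_coe, mem_biUnion]
        exact ⟨i, mem_univ i, mem_union_left _ (Nat.mem_primeFactors.2 ⟨hl.1, h, (hα i).ne'⟩)⟩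
      · intro h
        apply hlZ
        rw [hZ, Finset.mem_coe, mem_biUnion]
        exact ⟨i, mem_univ i, mem_union_right _ (Nat.mem_primeFactors.2 ⟨hl.1, h, (hβ i).ne'⟩)⟩
    have : Fact l.Prime := ⟨hl.1⟩
    obtain ⟨g, hg⟩ := power hF1 hc hl
    set x : Fin r → (ZMod l)ˣ := fun i => un l (α i) / un l (β i) with hx
    have hx1 : ∀ i, x i ^ (2 * (b i * g - a i)) = 1 := fun i =>
      ker_pow hl.1 (w_pow_g hF1 hc hl hg (a i) (b i)) (hα i) (hβ i) (hlZ' i).1 (hlZ' i).2 (he i)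
    have ho0 : ∀ i, 0 < orderOf (x i) := fun i => orderOf_pos _
    have hgcd : ∀ i j, i ≠ j → Nat.gcd (orderOf (x i)) (orderOf (x j)) ≤ D := by
      intro i j hij
      have h1 : (orderOf (x i) : ℤ) ∣ 2 * (b i * g - a i) := orderOf_dvd_iff_zpow_eq_one.2 (hx1 i)
      have h2 : (orderOf (x j) : ℤ) ∣ 2 * (b j * g - a j) := orderOf_dvd_iff_zpow_eq_one.2 (hx1 j)
      have h3 : ((Nat.gcd (orderOf (x i)) (orderOf (x j)) : ℕ) : ℤ) ∣
          2 * (a i * b j - a j * b i) := by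
        have e1 := (Int.natCast_dvd_natCast.2
          (Nat.gcd_dvd_left (orderOf (x i)) (orderOf (x j)))).trans h1
        have e2 := (Int.natCast_dvd_natCast.2
          (Nat.gcd_dvd_right (orderOf (x i)) (orderOf (x j)))).trans h2
        have e3 := dvd_sub (dvd_mul_of_dvd_left e2 (b i : ℤ)) (dvd_mul_of_dvd_left e1 (b j : ℤ))
        have e4 : 2 * (b j * g - a j) * (b i : ℤ) - 2 * (b i * g - a i) * (b j : ℤ) =
            2 * (a i * b j - a j * b i) := by ring
        rw [e4] at e3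
        exact e3
      have h4 : 2 * (a i * b j - a j * b i) ≠ 0 := by
        have := hne i j hij
        intro h
        apply this
        linarith
      have h5 : Nat.gcd (orderOf (x i)) (orderOf (x j)) ≤ (2 * (a i * b j - a j * b i)).natAbs :=
        Nat.le_of_dvd (Int.natAbs_pos.2 h4) (Int.natCast_dvd.1 h3)
      have h6 : (2 * (a i * b j - a j * b i)).natAbs ≤
          ∑ j, (2 * (a i * b j - a j * b i)).natAbs :=
        Finset.single_le_sum (f := fun j => (2 * (a i * b j - a j * b i)).natAbs)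
          (fun _ _ => Nat.zero_le _) (mem_univ j)
      have h7 : ∑ j, (2 * (a i * b j - a j * b i)).natAbs ≤
          ∑ i, ∑ j, (2 * (a i * b j - a j * b i)).natAbs :=
        Finset.single_le_sum (f := fun i => ∑ j, (2 * (a i * b j - a j * b i)).natAbs)
          (fun _ _ => Nat.zero_le _) (mem_univ i)
      omega
    have hbig : ∀ i, E + 1 ≤ orderOf (x i) := by
      intro i
      by_contra hlt
      apply hs i
      refine small_of_card _ _ E hl.1 (fun _ => hlZ' i) (Subgroup.zpowers (x i))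
        (fun _ => Subgroup.mem_zpowers _) ?_
      rw [Nat.card_zpowers, pow_one]
      omega
    have h1 := prod_le_lcm (fun i => orderOf (x i)) D hD1 univ (fun i _ j _ h => hgcd i j h)
      (fun i _ => ho0 i)
    have h2 : (univ : Finset (Fin r)).lcm (fun i => orderOf (x i)) ≤ l - 1 := by
      have h3 : (univ : Finset (Fin r)).lcm (fun i => orderOf (x i)) ∣ l - 1 := by
        refine Finset.lcm_dvd fun i _ => ?_
        have := orderOf_dvd_card (x := x i)
        rwa [ZMod.card_units_eq_totient, Nat.totient_prime hl.1] at this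
      exact Nat.le_of_dvd (by have := hl.1.one_lt; omega) h3
    have h3 : (E + 1) ^ r ≤ ∏ i, orderOf (x i) := by
      have := Finset.pow_card_le_prod (univ : Finset (Fin r)) (fun i => orderOf (x i)) (E + 1)
        (fun i _ => hbig i)
      simpa using this
    rw [card_univ, Fintype.card_fin, ← hK] at h1
    have h4 : (E + 1) ^ r ≤ K * X := by
      calc (E + 1) ^ r ≤ _ := h3
        _ ≤ _ := h1
        _ ≤ (l - 1) * K := Nat.mul_le_mul_right _ h2
        _ ≤ X * K := Nat.mul_le_mul_right _ (by omega)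
        _ = K * X := mul_comm _ _
    omega
  have hfin1 : ∀ i : Fin r, (Small (fun _ : Fin 1 => α i) (fun _ : Fin 1 => β i) E).Finite ∧
      (Small (fun _ : Fin 1 => α i) (fun _ : Fin 1 => β i) E).ncard ≤
        (2 * E + 1) ^ 1 * ((∏ _j : Fin 1, α i * β i) * E) := fun i =>
    small_card _ _ (fun _ => hα i) (fun _ => hβ i) (ind_one (hαβ i) (hα i) (hβ i)) E
  have hfin : ((Z : Set ℕ) ∪
      ⋃ i : Fin r, Small (fun _ : Fin 1 => α i) (fun _ : Fin 1 => β i) E).Finite :=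
    Z.finite_toSet.union (Set.finite_iUnion fun i => (hfin1 i).1)
  have c1 : ({l ∈ SF F | l ≤ X}).ncard ≤ Z.card + r * (3 * M * E ^ 2) := by
    calc _ ≤ _ := Set.ncard_le_ncard hsub hfin
      _ ≤ (Z : Set ℕ).ncard + (⋃ i : Fin r,
          Small (fun _ : Fin 1 => α i) (fun _ : Fin 1 => β i) E).ncard := Set.ncard_union_le _ _
      _ ≤ Z.card + ∑ i : Fin r,
          (Small (fun _ : Fin 1 => α i) (fun _ : Fin 1 => β i) E).ncard := by
        rw [Set.ncard_coe_finset]
        have := Set.ncard_iUnion_le_of_fintype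
          (fun i : Fin r => Small (fun _ : Fin 1 => α i) (fun _ : Fin 1 => β i) E)
        omega
      _ ≤ Z.card + ∑ _i : Fin r, (3 * M * E ^ 2) := by
        gcongr with i hi
        refine (hfin1 i).2.trans ?_
        have hMi : α i * β i ≤ M :=
          Finset.single_le_sum (f := fun i => α i * β i) (fun _ _ => Nat.zero_le _) (mem_univ i)
        simp only [pow_one, univ_unique, prod_const, card_singleton]
        calc (2 * E + 1) * (α i * β i * E) ≤ (3 * E) * (M * E) := by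
              apply Nat.mul_le_mul (by omega)
              exact Nat.mul_le_mul_right _ hMi
          _ = 3 * M * E ^ 2 := by ring
      _ = Z.card + r * (3 * M * E ^ 2) := by simp
  have c2 : (({l ∈ SF F | l ≤ X}).ncard : ℝ) ≤ Z.card + r * (3 * M * (E : ℝ) ^ 2) := by
    exact_mod_cast c1
  have c3 : (E : ℝ) ^ 2 ≤ (K : ℝ) ^ (2 / (r : ℝ)) * (X : ℝ) ^ (2 / (r : ℝ)) := by
    calc (E : ℝ) ^ 2 ≤ Y ^ 2 := pow_le_pow_left₀ (by positivity) hEY 2
      _ = ((K : ℝ) * X) ^ (2 / (r : ℝ)) := by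
        rw [hY, ← Real.rpow_natCast, ← Real.rpow_mul (by positivity)]
        congr 1
        push_cast
        ring
      _ = _ := Real.mul_rpow (by positivity) (by positivity)
  have c4 : 1 ≤ (X : ℝ) ^ (2 / (r : ℝ)) := Real.one_le_rpow hX1 (by positivity)
  calc (({l ∈ SF F | l ≤ X}).ncard : ℝ) ≤ Z.card + r * (3 * M * (E : ℝ) ^ 2) := c2
    _ ≤ Z.card * (X : ℝ) ^ (2 / (r : ℝ)) +
        r * (3 * M * ((K : ℝ) ^ (2 / (r : ℝ)) * (X : ℝ) ^ (2 / (r : ℝ)))) := by
      have d1 := mul_le_mul_of_nonneg_left c4 (Nat.cast_nonneg (α := ℝ) Z.card)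
      have d2 : (r : ℝ) * (3 * M * (E : ℝ) ^ 2) ≤
          r * (3 * M * ((K : ℝ) ^ (2 / (r : ℝ)) * (X : ℝ) ^ (2 / (r : ℝ)))) := by gcongr
      linarith
    _ = _ := by ring

end Pool.Agent.T2h24c
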